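import Pool.Agent.Work.MP_c2648d_gt.Above

set_option autoImplicit false

namespace Pool.Agent.Work.MP_c2648d_gt

open Set Topology Filter

/-- Two distinct strict-order-separated local minima with the same value. -/
def TwoMins (f : ℝ → ℝ) : Prop :=
  ∃ t t' : ℝ, t < t' ∧ IsLocalMin f t ∧ IsLocalMin f t' ∧ f t = f t'

lemma exists_rat_Icc {f : ℝ → ℝ} {t : ℝ} {S : Set ℝ} (hS : S ∈ 𝓝 t) (h : IsLocalMin f t) :
    ∃ p q : ℚ, (p : ℝ) < t ∧ t < q ∧ ∀ u ∈ Icc (p : ℝ) q, f t ≤ f u ∧ u ∈ S := by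
  have h1 : {u | f t ≤ f u} ∩ S ∈ 𝓝 t := Filter.inter_mem h hS
  obtain ⟨a, b, ⟨ha, hb⟩, hab⟩ := mem_nhds_iff_exists_Ioo_subset.mp h1
  obtain ⟨p, hp1, hp2⟩ := exists_rat_btwn ha
  obtain ⟨q, hq1, hq2⟩ := exists_rat_btwn hb
  refine ⟨p, q, hp2, hq1, fun u hu => ?_⟩
  exact hab ⟨hp1.trans_le hu.1, hu.2.trans_lt hq2⟩

lemma countable_twoMins (γ : ℝ → ℝ) : {s : ℝ | TwoMins fun u => γ u + s * u}.Countable := by
  have key : ∀ s ∈ {s : ℝ | TwoMins fun u => γ u + s * u}, ∃ r : ℚ × ℚ × ℚ × ℚ,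
      ∃ t t' : ℝ, t ∈ Icc (r.1 : ℝ) r.2.1 ∧ t' ∈ Icc (r.2.2.1 : ℝ) r.2.2.2 ∧
        (r.2.1 : ℝ) < r.2.2.1 ∧ (∀ u ∈ Icc (r.1 : ℝ) r.2.1, γ t + s * t ≤ γ u + s * u) ∧
        (∀ u ∈ Icc (r.2.2.1 : ℝ) r.2.2.2, γ t' + s * t' ≤ γ u + s * u) ∧
        γ t + s * t = γ t' + s * t' := by
    rintro s ⟨t, t', htt, h1, h2, heq⟩
    obtain ⟨r, hr1, hr2⟩ := exists_rat_btwn htt
    obtain ⟨p, q, hp, hq, hpq⟩ := exists_rat_Icc (Iio_mem_nhds hr1) h1
    obtain ⟨p', q', hp', hq', hpq'⟩ := exists_rat_Icc (Ioi_mem_nhds hr2) h2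
    refine ⟨(p, q, p', q'), t, t', ⟨hp.le, hq.le⟩, ⟨hp'.le, hq'.le⟩, ?_, fun u hu => (hpq u hu).1,
      fun u hu => (hpq' u hu).1, heq⟩
    have h3 : (q : ℝ) < r := (hpq q ⟨(hp.trans hq).le, le_rfl⟩).2
    have h4 : (r : ℝ) < p' := (hpq' p' ⟨le_rfl, (hp'.trans hq').le⟩).2
    exact h3.trans h4
  choose! φ hφ using key
  have hinj : InjOn φ {s : ℝ | TwoMins fun u => γ u + s * u} := by
    have aux : ∀ s ∈ {s : ℝ | TwoMins fun u => γ u + s * u},
        ∀ s' ∈ {s : ℝ | TwoMins fun u => γ u + s * u}, φ s = φ s' → ¬ s < s' := by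
      intro s hs s' hs' hss hlt
      obtain ⟨t, t', ht, ht', hqp, hmin, hmin', heq⟩ := hφ s hs
      obtain ⟨u, u', hu, hu', -, humin, humin', hueq⟩ := hφ s' hs'
      rw [← hss] at hu hu' humin humin'
      have h1 := humin t ht
      have h2 := hmin' u' hu'
      have h3 : (s' - s) * u' ≤ (s' - s) * t := by nlinarith
      have h4 : u' ≤ t := le_of_mul_le_mul_left h3 (sub_pos.mpr hlt)
      have h5 := ht.2
      have h6 := hu'.1
      linarith
    intro s hs s' hs' hss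
    rcases lt_trichotomy s s' with h | h | h
    · exact absurd h (aux s hs s' hs' hss)
    · exact h
    · exact absurd h (aux s' hs' s hs hss.symm)
  exact MapsTo.countable_of_injOn (mapsTo_univ φ _) hinj countable_univ

lemma exists_small_not_twoMins (γ : ℝ → ℝ) {δ : ℝ} (hδ : 0 < δ) :
    ∃ s, 0 < s ∧ s < δ ∧ ¬ TwoMins fun u => γ u + s * u := by
  have hd : Dense {s : ℝ | TwoMins fun u => γ u + s * u}ᶜ :=
    (countable_twoMins γ).dense_compl ℝ
  obtain ⟨s, hs, hs'⟩ := hd.exists_mem_open isOpen_Ioo (nonempty_Ioo.mpr hδ)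
  exact ⟨s, hs'.1, hs'.2, hs⟩

variable {X : Type*} [TopologicalSpace X]

/-- The class of `x`. -/
def Cls (g : X → ℝ) (x : X) : Set X := {y | g x = g y ∧ Above g x y}

/-- the bad functions -/
def Bad (p : C(X, ℝ)) (k : ℕ) : Set C(X, ℝ) :=
  {g | ∃ x : Fin 4 → X, (∀ i j, i ≠ j → 1 / ((k : ℝ) + 1) ≤ |p (x i) - p (x j)|) ∧
    ∀ i, g (x 0) = g (x i) ∧ Above g (x 0) (x i)}

lemma isClosed_bad [CompactSpace X] [T2Space X] (p : C(X, ℝ)) (k : ℕ) : IsClosed (Bad p k) := by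
  have h1 : Bad p k = Prod.fst '' {q : C(X, ℝ) × (Fin 4 → X) |
      (∀ i j, i ≠ j → 1 / ((k : ℝ) + 1) ≤ |p (q.2 i) - p (q.2 j)|) ∧
      ∀ i, q.1 (q.2 0) = q.1 (q.2 i) ∧ Above q.1 (q.2 0) (q.2 i)} := by
    ext g
    constructor
    · rintro ⟨x, hx, hx'⟩
      exact ⟨(g, x), ⟨hx, hx'⟩, rfl⟩
    · rintro ⟨⟨g', x⟩, ⟨hx, hx'⟩, rfl⟩
      exact ⟨x, hx, hx'⟩
  rw [h1]
  apply isClosedMap_fst_of_compactSpace
  have h2 : {q : C(X, ℝ) × (Fin 4 → X) |
      (∀ i j, i ≠ j → 1 / ((k : ℝ) + 1) ≤ |p (q.2 i) - p (q.2 j)|) ∧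
      ∀ i, q.1 (q.2 0) = q.1 (q.2 i) ∧ Above q.1 (q.2 0) (q.2 i)} =
      (⋂ i, ⋂ j, ⋂ (_ : i ≠ j), {q : C(X, ℝ) × (Fin 4 → X) |
        1 / ((k : ℝ) + 1) ≤ |p (q.2 i) - p (q.2 j)|}) ∩
      ⋂ i, ({q : C(X, ℝ) × (Fin 4 → X) | q.1 (q.2 0) = q.1 (q.2 i)} ∩
        {q : C(X, ℝ) × (Fin 4 → X) | Above q.1 (q.2 0) (q.2 i)}) := by
    ext q
    simp only [mem_inter_iff, mem_iInter]
    rfl
  rw [h2]
  refine IsClosed.inter ?_ ?_
  · refine isClosed_iInter fun i => isClosed_iInter fun j => isClosed_iInter fun _ => ?_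
    exact isClosed_le continuous_const (by fun_prop)
  · refine isClosed_iInter fun i => IsClosed.inter ?_ ?_
    · exact isClosed_eq (by fun_prop) (by fun_prop)
    · have : Continuous fun q : C(X, ℝ) × (Fin 4 → X) =>
          ((q.1, q.2 0, q.2 i) : C(X, ℝ) × X × X) := by fun_prop
      exact isClosed_above.preimage this

/-- Four distinct minimisers project to two distinct interior local minima. -/
lemma not_mem_bad_of_not_twoMins {p p' : C(X, ℝ)} {F : ℝ → ℝ} (hF : ∀ x, p x = F (p' x))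
    {γ : C(ℝ, ℝ)} (hγ : ¬ TwoMins γ) (k : ℕ) : γ.comp p' ∉ Bad p k := by
  rintro ⟨x, hx, hx'⟩
  apply hγ
  set t : Fin 4 → ℝ := fun i => p' (x i) with ht
  have hinj : Function.Injective t := by
    intro i j hij
    by_contra hne
    have h1 := hx i j hne
    have h2 : p (x i) = p (x j) := by
      rw [hF, hF]
      exact congrArg F hij
    rw [h2, sub_self, abs_zero] at h1
    have h3 : (0 : ℝ) < 1 / ((k : ℝ) + 1) := by positivity
    linarith
  choose hval C hC hx0 hxi hge using hx'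
  set D : Set X := ⋃ i, C i with hD
  have hDp : IsPreconnected D := isPreconnected_iUnion ⟨x 0, mem_iInter.mpr hx0⟩ hC
  have hDge : ∀ z ∈ D, γ (p' (x 0)) ≤ γ (p' z) := by
    intro z hz
    obtain ⟨i, hi⟩ := mem_iUnion.mp hz
    exact hge i z hi
  have hord : (p' '' D).OrdConnected :=
    (hDp.image _ p'.continuous.continuousOn).ordConnected
  have hmem : ∀ i, t i ∈ p' '' D := fun i => ⟨x i, mem_iUnion.mpr ⟨i, hxi i⟩, rfl⟩
  have hcard : (Finset.univ.image t).card = 4 := by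
    rw [Finset.card_image_of_injective _ hinj]; rfl
  set u := (Finset.univ.image t).orderEmbOfFin hcard with hu
  have hu_mem : ∀ i, ∃ j, t j = u i := by
    intro i
    have := Finset.orderEmbOfFin_mem (Finset.univ.image t) hcard i
    obtain ⟨j, -, hj⟩ := Finset.mem_image.mp this
    exact ⟨j, hj⟩
  have hval' : ∀ i, γ (u i) = γ (p' (x 0)) := by
    intro i
    obtain ⟨j, hj⟩ := hu_mem i
    rw [← hj]
    exact (hval j).symm
  have h01 : u 0 < u 1 := u.strictMono (by decide)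
  have h12 : u 1 < u 2 := u.strictMono (by decide)
  have h23 : u 2 < u 3 := u.strictMono (by decide)
  have hIcc : Icc (u 0) (u 3) ⊆ p' '' D := by
    obtain ⟨j0, hj0⟩ := hu_mem 0
    obtain ⟨j3, hj3⟩ := hu_mem 3
    rw [← hj0, ← hj3]
    exact hord.out (hmem j0) (hmem j3)
  have hloc : ∀ i, u 0 < u i → u i < u 3 → IsLocalMin γ (u i) := by
    intro i hi hi'
    have : Ioo (u 0) (u 3) ∈ 𝓝 (u i) := Ioo_mem_nhds hi hi'
    filter_upwards [this] with w hw
    obtain ⟨z, hz, rfl⟩ := hIcc ⟨hw.1.le, hw.2.le⟩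
    rw [hval' i]
    exact hDge z hz
  exact ⟨u 1, u 2, h12, hloc 1 h01 (h12.trans h23), hloc 2 (h01.trans h12) h23,
    (hval' 1).trans (hval' 2).symm⟩

/-- A tower of projections to the real line separating points. -/
structure Tower (p : ℕ → C(X, ℝ)) : Prop where
  bound : ∀ n x, |p n x| ≤ 1
  step : ∀ n, ∃ F : C(ℝ, ℝ), ∀ x, p n x = F (p (n + 1) x)
  sep : ∀ x y, (∀ n, p n x = p n y) → x = y

lemma Tower.factor {p : ℕ → C(X, ℝ)} (h : Tower p) {m n : ℕ} (hmn : m ≤ n) :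
    ∃ F : C(ℝ, ℝ), ∀ x, p m x = F (p n x) := by
  induction n, hmn using Nat.le_induction with
  | base => exact ⟨ContinuousMap.id ℝ, fun x => rfl⟩
  | succ n _ ih =>
    obtain ⟨F, hF⟩ := ih
    obtain ⟨G, hG⟩ := h.step n
    exact ⟨F.comp G, fun x => by rw [hF, hG]; rfl⟩

/-- The algebra of functions factoring through some projection. -/
def Tower.alg {p : ℕ → C(X, ℝ)} (h : Tower p) : Subalgebra ℝ C(X, ℝ) where
  carrier := {f | ∃ n, ∃ γ : C(ℝ, ℝ), ∀ x, f x = γ (p n x)}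
  mul_mem' := by
    rintro a b ⟨n, γ, hγ⟩ ⟨m, δ, hδ⟩
    obtain ⟨F, hF⟩ := h.factor (le_max_left n m)
    obtain ⟨G, hG⟩ := h.factor (le_max_right n m)
    exact ⟨max n m, γ.comp F * δ.comp G, fun x => by simp [hγ, hδ, hF, hG]⟩
  add_mem' := by
    rintro a b ⟨n, γ, hγ⟩ ⟨m, δ, hδ⟩
    obtain ⟨F, hF⟩ := h.factor (le_max_left n m)
    obtain ⟨G, hG⟩ := h.factor (le_max_right n m)
    exact ⟨max n m, γ.comp F + δ.comp G, fun x => by simp [hγ, hδ, hF, hG]⟩
  algebraMap_mem' := by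
    intro r
    exact ⟨0, ContinuousMap.const ℝ r, fun x => rfl⟩

lemma Tower.dense_compl_bad [CompactSpace X] [T2Space X] {p : ℕ → C(X, ℝ)} (h : Tower p)
    (n k : ℕ) : Dense (Bad (p n) k)ᶜ := by
  rw [Metric.dense_iff]
  intro g₀ η hη
  have hsep : h.alg.SeparatesPoints := by
    intro x y hxy
    have : ∃ m, p m x ≠ p m y := by
      by_contra hcon
      push Not at hcon
      exact hxy (h.sep x y hcon)
    obtain ⟨m, hm⟩ := this
    exact ⟨p m, ⟨p m, ⟨m, ContinuousMap.id ℝ, fun x => rfl⟩, rfl⟩, hm⟩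
  obtain ⟨⟨g₁, m₀, γ₀, hγ₀⟩, hg₁⟩ :=
    ContinuousMap.exists_mem_subalgebra_near_continuousMap_of_separatesPoints h.alg hsep g₀
      (η / 2) (half_pos hη)
  obtain ⟨F, hF⟩ := h.factor (le_max_left m₀ n)
  obtain ⟨G, hG⟩ := h.factor (le_max_right m₀ n)
  obtain ⟨s, hs0, hs1, hs2⟩ := exists_small_not_twoMins (γ₀.comp F) (half_pos hη)
  let γ : C(ℝ, ℝ) := γ₀.comp F + s • ContinuousMap.id ℝ
  have hγ : ¬ TwoMins γ := by
    have : (γ : ℝ → ℝ) = fun u => (γ₀.comp F) u + s * u := by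
      ext u; simp [γ]
    rw [this]; exact hs2
  refine ⟨γ.comp (p (max m₀ n)), ?_, not_mem_bad_of_not_twoMins hG hγ k⟩
  rw [Metric.mem_ball, dist_eq_norm]
  have h1 : ‖γ.comp (p (max m₀ n)) - g₁‖ ≤ s := by
    rw [ContinuousMap.norm_le _ hs0.le]
    intro x
    have h2 : g₁ x = γ₀ (F (p (max m₀ n) x)) := by rw [hγ₀, hF]
    simp only [ContinuousMap.sub_apply, ContinuousMap.comp_apply, h2, γ, ContinuousMap.add_apply,
      ContinuousMap.smul_apply, ContinuousMap.id_apply, smul_eq_mul, add_sub_cancel_left]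
    rw [norm_mul, Real.norm_eq_abs, Real.norm_eq_abs, abs_of_pos hs0]
    exact mul_le_of_le_one_right hs0.le (h.bound _ x)
  calc ‖γ.comp (p (max m₀ n)) - g₀‖
      = ‖(γ.comp (p (max m₀ n)) - g₁) + (g₁ - g₀)‖ := by rw [sub_add_sub_cancel]
    _ ≤ ‖γ.comp (p (max m₀ n)) - g₁‖ + ‖g₁ - g₀‖ := norm_add_le _ _
    _ < s + η / 2 := by
        have h3 : ‖g₁ - g₀‖ < η / 2 := hg₁
        linarith
    _ < η := by linarith

/-- A space with a tower of projections has a continuous function all of whose classes have at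
most three points. -/
theorem Tower.exists_good [CompactSpace X] [T2Space X] {p : ℕ → C(X, ℝ)} (h : Tower p) :
    ∃ g : C(X, ℝ), ∀ x, (Cls g x).encard ≤ 3 := by
  have hd : Dense (⋂ nk : ℕ × ℕ, (Bad (p nk.1) nk.2)ᶜ) :=
    dense_iInter_of_isOpen (fun nk => (isClosed_bad _ _).isOpen_compl)
      fun nk => h.dense_compl_bad _ _
  obtain ⟨g, hg⟩ := hd.nonempty
  refine ⟨g, fun x => ?_⟩
  by_contra hcon
  have h4 : (4 : ℕ∞) ≤ (Cls g x).encard := by
    rw [not_le] at hcon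
    have := Order.add_one_le_of_lt hcon
    norm_num at this
    exact this
  obtain ⟨T, hT, hTc⟩ := Set.exists_subset_encard_eq h4
  have hTfin : T.Finite := by
    rw [← Set.encard_lt_top_iff, hTc]
    exact ENat.natCast_lt_top 4
  have hTn : T.ncard = 4 := by
    rw [Set.ncard, hTc]; rfl
  have : Fintype T := hTfin.fintype
  have hcard : Fintype.card T = 4 := by
    rw [← Nat.card_eq_fintype_card]
    exact hTn
  let e : Fin 4 ≃ T := (Fintype.equivFinOfCardEq hcard).symm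
  let y : Fin 4 → X := fun i => (e i : X)
  have hyinj : Function.Injective y := Subtype.val_injective.comp e.injective
  have hyC : ∀ i, y i ∈ Cls g x := fun i => hT (e i).2
  -- pairwise distinct projections at some level
  have hlev : ∀ i j, i ≠ j → ∃ n, p n (y i) ≠ p n (y j) := by
    intro i j hij
    by_contra hc
    push Not at hc
    exact hij (hyinj (h.sep _ _ hc))
  choose! lev hlev' using hlev
  let N : ℕ := Finset.univ.sup fun ij : Fin 4 × Fin 4 => lev ij.1 ij.2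
  have hN : ∀ i j, i ≠ j → p N (y i) ≠ p N (y j) := by
    intro i j hij heq
    have hle : lev i j ≤ N :=
      Finset.le_sup (f := fun ij : Fin 4 × Fin 4 => lev ij.1 ij.2) (Finset.mem_univ (i, j))
    obtain ⟨F, hF⟩ := h.factor hle
    exact hlev' i j hij (by rw [hF, hF, heq])
  have hk : ∃ k : ℕ, ∀ i j, i ≠ j → 1 / ((k : ℝ) + 1) ≤ |p N (y i) - p N (y j)| := by
    have : ∀ i j, i ≠ j → ∃ k : ℕ, 1 / ((k : ℝ) + 1) ≤ |p N (y i) - p N (y j)| := by
      intro i j hij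
      have hpos : 0 < |p N (y i) - p N (y j)| := abs_pos.mpr (sub_ne_zero.mpr (hN i j hij))
      obtain ⟨k, hk⟩ := exists_nat_one_div_lt hpos
      exact ⟨k, hk.le⟩
    choose! kk hkk using this
    refine ⟨Finset.univ.sup fun ij : Fin 4 × Fin 4 => kk ij.1 ij.2, fun i j hij => ?_⟩
    refine le_trans ?_ (hkk i j hij)
    apply one_div_le_one_div_of_le (by positivity)
    have hle : kk i j ≤ Finset.univ.sup fun ij : Fin 4 × Fin 4 => kk ij.1 ij.2 :=
      Finset.le_sup (f := fun ij : Fin 4 × Fin 4 => kk ij.1 ij.2) (Finset.mem_univ (i, j))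
    have : (kk i j : ℝ) ≤ ((Finset.univ.sup fun ij : Fin 4 × Fin 4 => kk ij.1 ij.2 : ℕ) : ℝ) := by
      exact_mod_cast hle
    linarith
  obtain ⟨k, hk⟩ := hk
  have hnotbad := mem_iInter.mp hg (N, k)
  apply hnotbad
  refine ⟨y, hk, fun i => ?_⟩
  have h0 := hyC 0
  have hi := hyC i
  exact ⟨h0.1.symm.trans hi.1, (h0.2.symm h0.1).trans hi.2⟩

end Pool.Agent.Work.MP_c2648d_gt
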