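import Pool.Agent.Work.MP_c2648d_gt.Crooked
import Pool.Agent.Work.MP_c2648d_gt.Generic

set_option autoImplicit false

namespace Pool.Agent.Work.MP_c2648d_gt

open Set Topology Filter

lemma exists_next (m : ℕ) (F : ℕ → C(unitInterval, unitInterval)) :
    ∃ f : C(unitInterval, unitInterval), f 0 = 0 ∧ f 1 = 1 ∧
      ∀ n ≤ m, CrookedMap (1 / ((m : ℝ) + 1)) ((F n).comp f) := by
  have hε : (0 : ℝ) < 1 / ((m : ℝ) + 1) := by positivity
  have h1 : ∀ᶠ δ in 𝓝[>] (0 : ℝ), ∀ n ∈ Finset.range (m + 1), ∀ x y : unitInterval,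
      dist x y ≤ δ → dist (F n x) (F n y) ≤ 1 / ((m : ℝ) + 1) := by
    rw [Filter.eventually_all_finset]
    intro n _
    have huc := CompactSpace.uniformContinuous_of_continuous (F n).continuous
    rw [Metric.uniformContinuous_iff] at huc
    obtain ⟨δ, hδ, hδ'⟩ := huc _ hε
    filter_upwards [Ioo_mem_nhdsGT hδ] with η hη x y hxy
    exact (hδ' (hxy.trans_lt hη.2)).le
  obtain ⟨δ, hδ, hδ0⟩ := (h1.and self_mem_nhdsWithin).exists
  obtain ⟨f, hf0, hf1, hfc⟩ := exists_crookedMap (show (0 : ℝ) < δ from hδ0)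
  refine ⟨f, hf0, hf1, fun n hn => ?_⟩
  intro a b hab
  obtain ⟨c, d, h2, h3, h4, h5, h6⟩ := hfc a b hab
  refine ⟨c, d, h2, h3, h4, ?_, ?_⟩
  · exact hδ n (Finset.mem_range.mpr (by omega)) (f c) (f b) h5
  · exact hδ n (Finset.mem_range.mpr (by omega)) (f d) (f a) h6

/-- the next bonding map -/
noncomputable def nextMap (m : ℕ) (F : ℕ → C(unitInterval, unitInterval)) :
    C(unitInterval, unitInterval) := (exists_next m F).choose

lemma nextMap_spec (m : ℕ) (F : ℕ → C(unitInterval, unitInterval)) :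
    nextMap m F 0 = 0 ∧ nextMap m F 1 = 1 ∧
      ∀ n ≤ m, CrookedMap (1 / ((m : ℝ) + 1)) ((F n).comp (nextMap m F)) :=
  (exists_next m F).choose_spec

/-- composed bonding maps -/
noncomputable def FF : ℕ → ℕ → C(unitInterval, unitInterval)
  | 0 => fun _ => ContinuousMap.id _
  | m + 1 => fun n => if n ≤ m then (FF m n).comp (nextMap m (FF m)) else ContinuousMap.id _

/-- the bonding maps -/
noncomputable def bond (m : ℕ) : C(unitInterval, unitInterval) := nextMap m (FF m)

lemma FF_self (m : ℕ) : FF m m = ContinuousMap.id _ := by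
  cases m with
  | zero => rfl
  | succ m =>
    simp only [FF]
    rw [if_neg (by omega)]

lemma FF_succ {n m : ℕ} (h : n ≤ m) : FF (m + 1) n = (FF m n).comp (bond m) := by
  simp only [FF]
  rw [if_pos h]
  rfl

lemma crooked_FF {n m : ℕ} (h : n ≤ m) : CrookedMap (1 / ((m : ℝ) + 1)) (FF (m + 1) n) := by
  rw [FF_succ h]
  exact (nextMap_spec m (FF m)).2.2 n h

lemma bond_zero (m : ℕ) : bond m 0 = 0 := (nextMap_spec m (FF m)).1
lemma bond_one (m : ℕ) : bond m 1 = 1 := (nextMap_spec m (FF m)).2.1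

/-- The inverse limit. -/
def PA : Set (ℕ → unitInterval) := {x | ∀ m, x m = bond m (x (m + 1))}

lemma PA_coord {x : ℕ → unitInterval} (hx : x ∈ PA) {n m : ℕ} (h : n ≤ m) :
    x n = FF m n (x m) := by
  induction m, h using Nat.le_induction with
  | base => rw [FF_self]; rfl
  | succ m h ih =>
    rw [ih, FF_succ h, hx m]
    rfl

lemma isClosed_PA : IsClosed PA := by
  have : PA = ⋂ m, {x : ℕ → unitInterval | x m = bond m (x (m + 1))} := by
    ext x; simp only [mem_iInter]; rfl
  rw [this]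
  exact isClosed_iInter fun m => isClosed_eq (by fun_prop) (by fun_prop)

instance : CompactSpace PA := isCompact_iff_compactSpace.mp isClosed_PA.isCompact

/-- parametrisation of the finite stages -/
noncomputable def Psi (N : ℕ) (y : ℕ → unitInterval) : ℕ → unitInterval :=
  fun n => if n < N then FF N n (y N) else y n

lemma continuous_Psi (N : ℕ) : Continuous (Psi N) := by
  refine continuous_pi fun n => ?_
  by_cases h : n < N
  · have : (fun y : ℕ → unitInterval => Psi N y n) = fun y => FF N n (y N) := by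
      ext y; simp [Psi, h]
    rw [this]; fun_prop
  · have : (fun y : ℕ → unitInterval => Psi N y n) = fun y => y n := by
      ext y; simp [Psi, h]
    rw [this]; fun_prop

lemma PA_eq_iInter : PA = ⋂ N, range (Psi N) := by
  ext x
  simp only [mem_iInter, mem_range]
  constructor
  · intro hx N
    refine ⟨x, ?_⟩
    ext n
    simp only [Psi]
    split_ifs with h
    · rw [PA_coord hx h.le]
    · rfl
  · intro h m
    obtain ⟨y, rfl⟩ := h (m + 1)
    simp only [Psi]
    rw [if_pos (Nat.lt_succ_self m), if_neg (lt_irrefl _), FF_succ le_rfl, FF_self]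
    rfl

lemma range_Psi_succ (N : ℕ) : range (Psi (N + 1)) ⊆ range (Psi N) := by
  rintro _ ⟨y, rfl⟩
  refine ⟨Psi (N + 1) y, ?_⟩
  ext n
  by_cases h : n < N
  · simp only [Psi]
    rw [if_pos h, if_pos (Nat.lt_succ_self N), if_pos (by omega), FF_succ h.le, FF_succ le_rfl,
      FF_self]
    rfl
  · simp only [Psi, if_neg h]

lemma isConnected_PA : IsConnected PA := by
  have hanti : Antitone fun N => range (Psi N) := antitone_nat_of_succ_le range_Psi_succ
  have hcpt : ∀ N, IsCompact (range (Psi N)) := fun N => isCompact_range (continuous_Psi N)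
  have hconn : ∀ N, IsPreconnected (range (Psi N)) := fun N =>
    isPreconnected_range (continuous_Psi N)
  refine ⟨⟨fun _ => 0, fun m => (bond_zero m).symm⟩, ?_⟩
  intro u v hu hv hcov hne hne'
  by_contra hcon
  rw [not_nonempty_iff_eq_empty] at hcon
  have hA : PA ∩ u = PA ∩ vᶜ := by
    ext x
    constructor
    · rintro ⟨h1, h2⟩
      refine ⟨h1, fun h3 => ?_⟩
      have : x ∈ PA ∩ (u ∩ v) := ⟨h1, h2, h3⟩
      rw [hcon] at this; exact this
    · rintro ⟨h1, h2⟩
      exact ⟨h1, (hcov h1).resolve_right h2⟩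
  have hB : PA ∩ v = PA ∩ uᶜ := by
    ext x
    constructor
    · rintro ⟨h1, h2⟩
      refine ⟨h1, fun h3 => ?_⟩
      have : x ∈ PA ∩ (u ∩ v) := ⟨h1, h3, h2⟩
      rw [hcon] at this; exact this
    · rintro ⟨h1, h2⟩
      exact ⟨h1, (hcov h1).resolve_left h2⟩
  have hAc : IsCompact (PA ∩ u) := by
    rw [hA]; exact (isClosed_PA.inter hv.isClosed_compl).isCompact
  have hBc : IsCompact (PA ∩ v) := by
    rw [hB]; exact (isClosed_PA.inter hu.isClosed_compl).isCompact
  have hdisj : Disjoint (PA ∩ u) (PA ∩ v) := by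
    rw [Set.disjoint_left]
    rintro x ⟨h1, h2⟩ ⟨-, h3⟩
    have : x ∈ PA ∩ (u ∩ v) := ⟨h1, h2, h3⟩
    rw [hcon] at this; exact this
  obtain ⟨U, V, hU, hV, hAU, hBV, hUV⟩ := SeparatedNhds.of_isCompact_isCompact hAc hBc hdisj
  obtain ⟨N, hN⟩ := exists_subset_nhds_of_isCompact (V := fun N => range (Psi N))
    hanti.directed_ge hcpt (U := U ∪ V) (by
      intro x hx
      rw [← PA_eq_iInter] at hx
      apply (hU.union hV).mem_nhds
      rcases hcov hx with h | h
      · exact Or.inl (hAU ⟨hx, h⟩)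
      · exact Or.inr (hBV ⟨hx, h⟩))
  have hsub : PA ⊆ range (Psi N) := by
    rw [PA_eq_iInter]; exact iInter_subset _ N
  obtain ⟨a, ha, hau⟩ := hne
  obtain ⟨b, hb, hbv⟩ := hne'
  exact isPreconnected_not_separated hU hV hUV (hconn N) (hsub ha) (hsub hb) (hAU ⟨ha, hau⟩)
    (hBV ⟨hb, hbv⟩) hN

instance : ConnectedSpace PA := isConnected_iff_connectedSpace.mp isConnected_PA

instance : Nontrivial PA := by
  refine ⟨⟨⟨fun _ => 0, fun m => (bond_zero m).symm⟩, ⟨fun _ => 1, fun m => (bond_one m).symm⟩, ?_⟩⟩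
  intro h
  have := congrFun (congrArg Subtype.val h) 0
  exact zero_ne_one this

/-- the coordinate projections as real functions -/
def pr (n : ℕ) : C(PA, ℝ) := ⟨fun x => (x.1 n : ℝ),
  continuous_subtype_val.comp ((continuous_apply n).comp continuous_subtype_val)⟩

/-- the coordinate projections -/
def prI (n : ℕ) : C(PA, unitInterval) := ⟨fun x => x.1 n,
  (continuous_apply n).comp continuous_subtype_val⟩

lemma tower_pr : Tower pr where
  bound := by
    intro n x
    have := (x.1 n).2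
    change |((x.1 n : unitInterval) : ℝ)| ≤ 1
    rw [abs_of_nonneg this.1]
    exact this.2
  step := by
    intro n
    refine ⟨⟨fun t => (bond n (projIcc 0 1 zero_le_one t) : ℝ), ?_⟩, fun x => ?_⟩
    · have : Continuous (projIcc (0 : ℝ) 1 zero_le_one) := continuous_projIcc
      fun_prop
    · change ((x.1 n : unitInterval) : ℝ) =
        (bond n (projIcc 0 1 zero_le_one ((x.1 (n + 1) : unitInterval) : ℝ)) : ℝ)
      rw [projIcc_val, x.2 n]
  sep := by
    intro x y h
    apply Subtype.ext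
    funext n
    exact Subtype.ext (h n)

/-- A point outside a closed set is separated from it by some projection. -/
lemma exists_prI_notMem {L : Set PA} (hL : IsCompact L) {k : PA} (hk : k ∉ L) :
    ∃ n, prI n k ∉ prI n '' L := by
  by_contra hcon
  push Not at hcon
  have hcl : ∀ n, IsClosed (L ∩ {x | prI n x = prI n k}) := fun n =>
    hL.isClosed.inter (isClosed_eq (by fun_prop) continuous_const)
  obtain ⟨x, hx⟩ := IsCompact.nonempty_iInter_of_sequence_nonempty_isCompact_isClosed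
    (fun n => L ∩ {x | prI n x = prI n k}) (by
      rintro n x ⟨hx, hxn⟩
      refine ⟨hx, ?_⟩
      have hxn' : x.1 (n + 1) = k.1 (n + 1) := hxn
      change x.1 n = k.1 n
      rw [x.2 n, k.2 n, hxn']) (by
      intro n
      obtain ⟨x, hx, hxk⟩ := hcon n
      exact ⟨x, hx, hxk⟩) (hcl 0).isCompact hcl
  rw [mem_iInter] at hx
  apply hk
  have : x = k := by
    apply Subtype.ext
    funext n
    exact (hx n).2
  rw [← this]
  exact (hx 0).1

lemma prI_notMem_mono {L : Set PA} {k : PA} {n m : ℕ} (h : n ≤ m) (hk : prI n k ∉ prI n '' L) :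
    prI m k ∉ prI m '' L := by
  rintro ⟨x, hx, hxk⟩
  apply hk
  refine ⟨x, hx, ?_⟩
  have h1 : x.1 m = k.1 m := hxk
  change x.1 n = k.1 n
  rw [PA_coord x.2 h, PA_coord k.2 h, h1]

lemma exists_gap {L : Set PA} (hL : IsCompact L) {k : PA} {n : ℕ}
    (hk : prI n k ∉ prI n '' L) :
    ∃ ε > 0, ∀ x ∈ L, ε < |(prI n x : ℝ) - prI n k| := by
  rcases L.eq_empty_or_nonempty with he | hne
  · exact ⟨1, one_pos, by simp [he]⟩
  · have hc : Continuous fun x : PA => |(prI n x : ℝ) - prI n k| := by fun_prop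
    obtain ⟨x₀, hx₀, hmin⟩ := hL.exists_isMinOn hne hc.continuousOn
    have hpos : 0 < |(prI n x₀ : ℝ) - prI n k| := by
      rw [abs_pos, sub_ne_zero]
      intro h
      exact hk ⟨x₀, hx₀, Subtype.ext h⟩
    refine ⟨|(prI n x₀ : ℝ) - prI n k| / 2, half_pos hpos, fun x hx => ?_⟩
    have h1 : |(prI n x₀ : ℝ) - prI n k| ≤ |(prI n x : ℝ) - prI n k| := hmin hx
    linarith

/-- Any two meeting subcontinua of the inverse limit are nested. -/
theorem nested {K L : Set PA} (hK : IsCompact K) (hKc : IsPreconnected K) (hL : IsCompact L)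
    (hLc : IsPreconnected L) (hKL : (K ∩ L).Nonempty) : K ⊆ L ∨ L ⊆ K := by
  by_contra hcon
  push Not at hcon
  obtain ⟨hKL', hLK'⟩ := hcon
  obtain ⟨k, hk, hkL⟩ := not_subset.mp hKL'
  obtain ⟨l, hl, hlK⟩ := not_subset.mp hLK'
  obtain ⟨n1, hn1⟩ := exists_prI_notMem hL hkL
  obtain ⟨n2, hn2⟩ := exists_prI_notMem hK hlK
  set n := max n1 n2 with hn
  have hkn := prI_notMem_mono (le_max_left n1 n2) hn1
  have hln := prI_notMem_mono (le_max_right n1 n2) hn2
  rw [← hn] at hkn hln
  obtain ⟨ε1, hε1, hgap1⟩ := exists_gap hL hkn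
  obtain ⟨ε2, hε2, hgap2⟩ := exists_gap hK hln
  obtain ⟨M, hM⟩ := exists_nat_one_div_lt (lt_min hε1 hε2)
  set m := max M n with hm
  have hmM : 1 / ((m : ℝ) + 1) < min ε1 ε2 := by
    refine lt_of_le_of_lt ?_ hM
    apply one_div_le_one_div_of_le (by positivity)
    have : (M : ℝ) ≤ m := by exact_mod_cast le_max_left M n
    linarith
  have hcr := crooked_FF (le_max_right M n)
  rw [← hm] at hcr
  have hcoord : ∀ x : PA, FF (m + 1) n (prI (m + 1) x) = prI n x := fun x =>
    (PA_coord x.2 ((le_max_right M n).trans (Nat.le_succ _))).symm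
  have hpK : IsPreconnected (prI (m + 1) '' K) := hKc.image _ (prI (m + 1)).continuous.continuousOn
  have hpL : IsPreconnected (prI (m + 1) '' L) := hLc.image _ (prI (m + 1)).continuous.continuousOn
  obtain ⟨w, hwK, hwL⟩ := hKL
  have hpU : IsPreconnected (prI (m + 1) '' K ∪ prI (m + 1) '' L) :=
    hpK.union (prI (m + 1) w) ⟨w, hwK, rfl⟩ ⟨w, hwL, rfl⟩ hpL
  have hkU : prI (m + 1) k ∈ prI (m + 1) '' K ∪ prI (m + 1) '' L := Or.inl ⟨k, hk, rfl⟩
  have hlU : prI (m + 1) l ∈ prI (m + 1) '' K ∪ prI (m + 1) '' L := Or.inr ⟨l, hl, rfl⟩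
  rcases le_total (prI (m + 1) k) (prI (m + 1) l) with hle | hle
  · obtain ⟨c, d, h1, h2, h3, h4, h5⟩ := hcr _ _ hle
    rw [hcoord] at h4 h5
    have hdU := hpU.ordConnected.out hkU hlU ⟨h1.trans h2, h3⟩
    have hdK : d ∈ prI (m + 1) '' K := by
      rcases hdU with h | ⟨x, hx, rfl⟩
      · exact h
      · exfalso
        rw [hcoord] at h5
        have := hgap1 x hx
        linarith [min_le_left ε1 ε2]
    have hcK := hpK.ordConnected.out ⟨k, hk, rfl⟩ hdK ⟨h1, h2⟩
    obtain ⟨x, hx, rfl⟩ := hcK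
    rw [hcoord] at h4
    have := hgap2 x hx
    linarith [min_le_right ε1 ε2]
  · obtain ⟨c, d, h1, h2, h3, h4, h5⟩ := hcr _ _ hle
    rw [hcoord] at h4 h5
    have hdU := hpU.ordConnected.out hlU hkU ⟨h1.trans h2, h3⟩
    have hdL : d ∈ prI (m + 1) '' L := by
      rcases hdU with ⟨x, hx, rfl⟩ | h
      · exfalso
        rw [hcoord] at h5
        have := hgap2 x hx
        linarith [min_le_right ε1 ε2]
      · exact h
    have hcL := hpL.ordConnected.out ⟨l, hl, rfl⟩ hdL ⟨h1, h2⟩
    obtain ⟨x, hx, rfl⟩ := hcL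
    rw [hcoord] at h4
    have := hgap1 x hx
    linarith [min_le_left ε1 ε2]

end Pool.Agent.Work.MP_c2648d_gt
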