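import Mathlib

set_option autoImplicit false

namespace Pool.Agent.Work.MP_c2648d_gt

open Set Topology Filter

/-- `y` can be joined to `x` by a connected set inside `{g ≥ g x}`. -/
def Above {X : Type*} [TopologicalSpace X] (g : X → ℝ) (x y : X) : Prop :=
  ∃ C : Set X, IsPreconnected C ∧ x ∈ C ∧ y ∈ C ∧ ∀ z ∈ C, g x ≤ g z

variable {X : Type*} [TopologicalSpace X]

lemma Above.refl (g : X → ℝ) (x : X) : Above g x x :=
  ⟨{x}, isPreconnected_singleton, rfl, rfl, by simp⟩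

lemma Above.le {g : X → ℝ} {x y : X} (h : Above g x y) : g x ≤ g y := by
  obtain ⟨C, -, -, hy, hC⟩ := h
  exact hC y hy

lemma Above.trans {g : X → ℝ} {x y z : X} (h : Above g x y) (h' : Above g y z) :
    Above g x z := by
  have hxy := h.le
  obtain ⟨C, hC, hx, hy, hg⟩ := h
  obtain ⟨D, hD, hy', hz, hg'⟩ := h'
  refine ⟨C ∪ D, hC.union y hy hy' hD, Or.inl hx, Or.inr hz, ?_⟩
  rintro w (hw | hw)
  · exact hg w hw
  · exact hxy.trans (hg' w hw)

lemma Above.symm {g : X → ℝ} {x y : X} (h : Above g x y) (hxy : g x = g y) :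
    Above g y x := by
  obtain ⟨C, hC, hx, hy, hg⟩ := h
  exact ⟨C, hC, hy, hx, fun z hz => hxy ▸ hg z hz⟩

/-- Separation of two points of a compact set lying in different components. -/
lemma exists_open_separation [T2Space X] {K : Set X} (hK : IsCompact K) {x y : X}
    (hx : x ∈ K) (hy : y ∈ K)
    (h : ¬ ∃ C : Set X, IsPreconnected C ∧ C ⊆ K ∧ x ∈ C ∧ y ∈ C) :
    ∃ U V : Set X, IsOpen U ∧ IsOpen V ∧ Disjoint U V ∧ x ∈ U ∧ y ∈ V ∧ K ⊆ U ∪ V := by
  have : CompactSpace K := isCompact_iff_compactSpace.mp hK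
  have h1 : (⟨y, hy⟩ : K) ∉ connectedComponent (⟨x, hx⟩ : K) := by
    intro hmem
    apply h
    refine ⟨Subtype.val '' connectedComponent (⟨x, hx⟩ : K), ?_, ?_, ?_, ?_⟩
    · exact isPreconnected_connectedComponent.image _ continuous_subtype_val.continuousOn
    · rintro _ ⟨z, -, rfl⟩; exact z.2
    · exact ⟨_, mem_connectedComponent, rfl⟩
    · exact ⟨_, hmem, rfl⟩
  rw [connectedComponent_eq_iInter_isClopen] at h1
  simp only [mem_iInter, not_forall] at h1
  obtain ⟨⟨Z, hZ, hxZ⟩, hyZ⟩ := h1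
  have hA : IsCompact (Subtype.val '' Z : Set X) := hZ.isClosed.isCompact.image continuous_subtype_val
  have hB : IsCompact (Subtype.val '' Zᶜ : Set X) :=
    hZ.compl.isClosed.isCompact.image continuous_subtype_val
  have hAB : Disjoint (Subtype.val '' Z : Set X) (Subtype.val '' Zᶜ) :=
    (disjoint_image_iff Subtype.val_injective).mpr disjoint_compl_right
  obtain ⟨U, V, hU, hV, hAU, hBV, hUV⟩ := SeparatedNhds.of_isCompact_isCompact hA hB hAB
  refine ⟨U, V, hU, hV, hUV, hAU ⟨_, hxZ, rfl⟩, hBV ⟨_, hyZ, rfl⟩, ?_⟩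
  intro z hz
  by_cases hzZ : (⟨z, hz⟩ : K) ∈ Z
  · exact Or.inl (hAU ⟨_, hzZ, rfl⟩)
  · exact Or.inr (hBV ⟨_, hzZ, rfl⟩)

lemma isPreconnected_not_separated {U V C : Set X} (hU : IsOpen U) (hV : IsOpen V)
    (hUV : Disjoint U V) (hC : IsPreconnected C) {x y : X} (hx : x ∈ C) (hy : y ∈ C)
    (hxU : x ∈ U) (hyV : y ∈ V) (hCUV : C ⊆ U ∪ V) : False := by
  obtain ⟨z, -, hz⟩ := hC U V hU hV hCUV ⟨x, hx, hxU⟩ ⟨y, hy, hyV⟩
  exact hUV.le_bot hz

/-- Key closedness: the relation `Above` is closed jointly in the function and the points. -/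
lemma isOpen_not_above [CompactSpace X] [T2Space X] :
    IsOpen {p : C(X, ℝ) × X × X | ¬ Above p.1 p.2.1 p.2.2} := by
  rw [isOpen_iff_mem_nhds]
  rintro ⟨g, x, y⟩ hp
  simp only [mem_ofPred_eq] at hp
  have hev : Continuous fun p : C(X, ℝ) × X × X => p.1 p.2.1 := by fun_prop
  have hev' : Continuous fun p : C(X, ℝ) × X × X => p.1 p.2.2 := by fun_prop
  by_cases hxy : g y < g x
  · have h1 : ∀ᶠ p : C(X, ℝ) × X × X in 𝓝 (g, x, y), p.1 p.2.2 < p.1 p.2.1 :=
      (hev'.continuousAt).eventually_lt hev.continuousAt hxy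
    filter_upwards [h1] with p hp' hA
    exact absurd hA.le (not_le.mpr hp')
  · push Not at hxy
    have hK : IsCompact {z | g x ≤ g z} := (isClosed_le continuous_const g.continuous).isCompact
    obtain ⟨U, V, hU, hV, hUV, hxU, hyV, hKUV⟩ := exists_open_separation hK (x := x) (y := y)
      (by simp) (by simpa using hxy) (by
        rintro ⟨C, hC, hCK, hxC, hyC⟩
        exact hp ⟨C, hC, hxC, hyC, fun z hz => hCK hz⟩)
    have hW : IsCompact (U ∪ V)ᶜ := (hU.union hV).isClosed_compl.isCompact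
    obtain ⟨δ, hδ, hδW⟩ : ∃ δ > 0, ∀ z ∈ (U ∪ V)ᶜ, g z + δ ≤ g x := by
      rcases (U ∪ V)ᶜ.eq_empty_or_nonempty with he | hne
      · exact ⟨1, one_pos, by simp [he]⟩
      · obtain ⟨z₀, hz₀, hmax⟩ := hW.exists_isMaxOn hne g.continuous.continuousOn
        have hlt : g z₀ < g x := by
          by_contra hcon
          exact hz₀ (hKUV (not_lt.mp hcon))
        refine ⟨g x - g z₀, sub_pos.mpr hlt, fun z hz => ?_⟩
        have := hmax hz
        simp only [mem_ofPred_eq] at this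
        linarith
    have h1 : ∀ᶠ p : C(X, ℝ) × X × X in 𝓝 (g, x, y), dist p.1 g < δ / 2 :=
      (continuous_fst.tendsto (g, x, y)).eventually (Metric.ball_mem_nhds g (half_pos hδ))
    have h2 : ∀ᶠ p : C(X, ℝ) × X × X in 𝓝 (g, x, y), g x - δ / 2 < p.1 p.2.1 :=
      continuousAt_const.eventually_lt hev.continuousAt (by simp; linarith)
    have h3 : ∀ᶠ p : C(X, ℝ) × X × X in 𝓝 (g, x, y), p.2.1 ∈ U :=
      ((continuous_fst.comp continuous_snd).tendsto (g, x, y)).eventually (hU.mem_nhds hxU)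
    have h4 : ∀ᶠ p : C(X, ℝ) × X × X in 𝓝 (g, x, y), p.2.2 ∈ V :=
      ((continuous_snd.comp continuous_snd).tendsto (g, x, y)).eventually (hV.mem_nhds hyV)
    filter_upwards [h1, h2, h3, h4] with p hp1 hp2 hp3 hp4 hA
    obtain ⟨C, hC, hxC, hyC, hgC⟩ := hA
    refine isPreconnected_not_separated hU hV hUV hC hxC hyC hp3 hp4 ?_
    intro z hz
    by_contra hzUV
    have h5 := hδW z hzUV
    have h6 := hgC z hz
    have h7 : dist (p.1 z) (g z) < δ / 2 := (ContinuousMap.dist_apply_le_dist z).trans_lt hp1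
    rw [Real.dist_eq] at h7
    have h8 := (abs_lt.mp h7).2
    linarith

lemma isClosed_above [CompactSpace X] [T2Space X] :
    IsClosed {p : C(X, ℝ) × X × X | Above p.1 p.2.1 p.2.2} := by
  rw [← isOpen_compl_iff]
  exact isOpen_not_above

end Pool.Agent.Work.MP_c2648d_gt
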