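import Mathlib

set_option autoImplicit false

namespace Pool.Agent.Work.MP_c2648d_gt

open Set

/-- Unit-scale crookedness of a real function on `[p, q]`. -/
def Crk (f : ℝ → ℝ) (p q : ℝ) : Prop :=
  ∀ a b, p ≤ a → a ≤ b → b ≤ q →
    ∃ c d, a ≤ c ∧ c ≤ d ∧ d ≤ b ∧ |f c - f b| ≤ 1 ∧ |f d - f a| ≤ 1

lemma ivt_up {f : ℝ → ℝ} (hf : Continuous f) {x y v : ℝ} (hxy : x ≤ y) (h1 : f x ≤ v)
    (h2 : v ≤ f y) : ∃ z, x ≤ z ∧ z ≤ y ∧ f z = v := by
  obtain ⟨z, hz, hz'⟩ := intermediate_value_Icc hxy hf.continuousOn ⟨h1, h2⟩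
  exact ⟨z, hz.1, hz.2, hz'⟩

lemma ivt_down {f : ℝ → ℝ} (hf : Continuous f) {x y v : ℝ} (hxy : x ≤ y) (h1 : v ≤ f x)
    (h2 : f y ≤ v) : ∃ z, x ≤ z ∧ z ≤ y ∧ f z = v := by
  obtain ⟨z, hz, hz'⟩ := intermediate_value_Icc' hxy hf.continuousOn ⟨h2, h1⟩
  exact ⟨z, hz.1, hz.2, hz'⟩

/-- The three-piece gluing lemma for crooked functions. -/
lemma crk_glue {F : ℝ → ℝ} (hF : Continuous F) {p q r s L : ℝ} (hpq : p ≤ q) (hqr : q ≤ r)
    (hrs : r ≤ s) (hFq : F q = L) (hFr : F r = 1)
    (hA : ∀ x, p ≤ x → x ≤ q → 0 ≤ F x ∧ F x ≤ L)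
    (hB : ∀ x, q ≤ x → x ≤ r → 1 ≤ F x ∧ F x ≤ L)
    (hC : ∀ x, r ≤ x → x ≤ s → 1 ≤ F x ∧ F x ≤ L + 1)
    (cA : Crk F p q) (cB : Crk F q r) (cC : Crk F r s) : Crk F p s := by
  intro a b hpa hab hbs
  rcases le_total b q with hbq | hbq
  · exact cA a b hpa hab hbq
  rcases le_total a q with haq | haq
  · -- a in A
    have ha := hA a hpa haq
    rcases le_total b r with hbr | hbr
    · -- b in B
      have hb := hB b hbq hbr
      rcases le_or_gt (F a) (F b) with hle | hlt
      · obtain ⟨c1, d1, h1, h2, h3, h4, h5⟩ := cA a q hpa haq le_rfl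
        rw [hFq, abs_le] at h4
        rcases le_or_gt (F b) (F c1) with h6 | h6
        · obtain ⟨c, hc1, hc2, hc3⟩ := ivt_up hF h1 hle h6
          refine ⟨c, d1, hc1, hc2.trans h2, h3.trans hbq, ?_, h5⟩
          rw [hc3, sub_self, abs_zero]; exact zero_le_one
        · refine ⟨c1, d1, h1, h2, h3.trans hbq, ?_, h5⟩
          rw [abs_le]; constructor <;> linarith [h4.1, h4.2, hb.1, hb.2]
      · obtain ⟨c2, d2, h1, h2, h3, h4, h5⟩ := cB q b le_rfl hbq hbr
        rw [hFq, abs_le] at h5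
        rcases le_or_gt (F c2) (F a) with h6 | h6
        · rcases le_or_gt (F a) (F d2) with h7 | h7
          · obtain ⟨d, hd1, hd2, hd3⟩ := ivt_up hF h2 h6 h7
            refine ⟨c2, d, haq.trans h1, hd1, hd2.trans h3, h4, ?_⟩
            rw [hd3, sub_self, abs_zero]; exact zero_le_one
          · refine ⟨c2, d2, haq.trans h1, h2, h3, h4, ?_⟩
            rw [abs_le]; constructor <;> linarith [h5.1, h5.2, ha.1, ha.2]
        · refine ⟨c2, c2, haq.trans h1, le_rfl, h2.trans h3, h4, ?_⟩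
          rw [abs_le] at h4 ⊢; constructor <;> linarith [h4.1, h4.2]
    · -- b in C
      have hb := hC b hbr hbs
      rcases le_or_gt (F a) (F b) with hle | hlt
      · have hc : ∃ c, a ≤ c ∧ c ≤ q ∧ |F c - F b| ≤ 1 := by
          rcases le_or_gt (F b) L with h6 | h6
          · obtain ⟨c, hc1, hc2, hc3⟩ := ivt_up hF haq hle (h6.trans hFq.ge)
            exact ⟨c, hc1, hc2, by rw [hc3, sub_self, abs_zero]; exact zero_le_one⟩
          · refine ⟨q, haq, le_rfl, ?_⟩
            rw [hFq, abs_le]; constructor <;> linarith [hb.1, hb.2]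
        have hd : ∃ d, r ≤ d ∧ d ≤ b ∧ |F d - F a| ≤ 1 := by
          rcases le_or_gt 1 (F a) with h6 | h6
          · obtain ⟨d, hd1, hd2, hd3⟩ := ivt_up hF hbr (hFr.le.trans h6) hle
            exact ⟨d, hd1, hd2, by rw [hd3, sub_self, abs_zero]; exact zero_le_one⟩
          · refine ⟨r, le_rfl, hbr, ?_⟩
            rw [hFr, abs_le]; constructor <;> linarith [ha.1, ha.2]
        obtain ⟨c, hc1, hc2, hc3⟩ := hc
        obtain ⟨d, hd1, hd2, hd3⟩ := hd
        exact ⟨c, d, hc1, hc2.trans (hqr.trans hd1), hd2, hc3, hd3⟩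
      · obtain ⟨c2, d2, h1, h2, h3, h4, h5⟩ := cB q r le_rfl hqr le_rfl
        rw [hFr, abs_le] at h4
        rw [hFq, abs_le] at h5
        have hc : ∃ c, q ≤ c ∧ c ≤ c2 ∧ |F c - F b| ≤ 1 := by
          rcases le_or_gt (F c2) (F b) with h6 | h6
          · obtain ⟨c, hc1, hc2, hc3⟩ := ivt_down hF h1 (by rw [hFq]; linarith [ha.2]) h6
            exact ⟨c, hc1, hc2, by rw [hc3, sub_self, abs_zero]; exact zero_le_one⟩
          · refine ⟨c2, h1, le_rfl, ?_⟩
            rw [abs_le]; constructor <;> linarith [hb.1, hb.2, h4.1, h4.2]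
        have hd : ∃ d, c2 ≤ d ∧ d ≤ d2 ∧ |F d - F a| ≤ 1 := by
          rcases le_or_gt (F c2) (F a) with h6 | h6
          · rcases le_or_gt (F a) (F d2) with h7 | h7
            · obtain ⟨d, hd1, hd2, hd3⟩ := ivt_up hF h2 h6 h7
              exact ⟨d, hd1, hd2, by rw [hd3, sub_self, abs_zero]; exact zero_le_one⟩
            · refine ⟨d2, h2, le_rfl, ?_⟩
              rw [abs_le]; constructor <;> linarith [h5.1, h5.2, ha.1, ha.2]
          · refine ⟨c2, le_rfl, h2, ?_⟩
            rw [abs_le]; constructor <;> linarith [hb.1, hb.2, h4.1, h4.2]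
        obtain ⟨c, hc1, hc2, hc3⟩ := hc
        obtain ⟨d, hd1, hd2, hd3⟩ := hd
        exact ⟨c, d, haq.trans hc1, hc2.trans hd1, hd2.trans (h3.trans hbr), hc3, hd3⟩
  · rcases le_total b r with hbr | hbr
    · exact cB a b haq hab hbr
    rcases le_total a r with har | har
    · -- a in B, b in C
      have ha := hB a haq har
      have hb := hC b hbr hbs
      rcases le_or_gt (F a) (F b) with hle | hlt
      · obtain ⟨c2, d2, h1, h2, h3, h4, h5⟩ := cC r b le_rfl hbr hbs
        rw [hFr, abs_le] at h5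
        have hd : ∃ d, c2 ≤ d ∧ d ≤ d2 ∧ |F d - F a| ≤ 1 := by
          rcases le_or_gt (F a) (F c2) with h6 | h6
          · rcases le_or_gt (F d2) (F a) with h7 | h7
            · obtain ⟨d, hd1, hd2, hd3⟩ := ivt_down hF h2 h6 h7
              exact ⟨d, hd1, hd2, by rw [hd3, sub_self, abs_zero]; exact zero_le_one⟩
            · refine ⟨d2, h2, le_rfl, ?_⟩
              rw [abs_le]; constructor <;> linarith [h5.1, h5.2, ha.1, ha.2]
          · refine ⟨c2, le_rfl, h2, ?_⟩
            rw [abs_le] at h4 ⊢; constructor <;> linarith [h4.1, h4.2]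
        obtain ⟨d, hd1, hd2, hd3⟩ := hd
        exact ⟨c2, d, har.trans h1, hd1, hd2.trans h3, h4, hd3⟩
      · obtain ⟨c1, d1, h1, h2, h3, h4, h5⟩ := cB a r haq har le_rfl
        rw [hFr, abs_le] at h4
        have hc : ∃ c, a ≤ c ∧ c ≤ c1 ∧ |F c - F b| ≤ 1 := by
          rcases le_or_gt (F c1) (F b) with h6 | h6
          · obtain ⟨c, hc1, hc2, hc3⟩ := ivt_down hF h1 hlt.le h6
            exact ⟨c, hc1, hc2, by rw [hc3, sub_self, abs_zero]; exact zero_le_one⟩
          · refine ⟨c1, h1, le_rfl, ?_⟩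
            rw [abs_le]; constructor <;> linarith [hb.1, hb.2, h4.1, h4.2]
        obtain ⟨c, hc1, hc2, hc3⟩ := hc
        exact ⟨c, d1, hc1, hc2.trans h2, h3.trans hbr, hc3, h5⟩
    · exact cC a b har hab hbs

/-- transport of crookedness along an increasing affine change of variable and a shift. -/
lemma crk_affine {f F : ℝ → ℝ} (hf : Crk f 0 1) {p q v : ℝ} (hpq : p < q)
    (h : ∀ x, p ≤ x → x ≤ q → F x = v + f ((x - p) / (q - p))) : Crk F p q := by
  intro a b ha hab hb
  have hpos : 0 < q - p := sub_pos.mpr hpq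
  obtain ⟨c, d, h1, h2, h3, h4, h5⟩ := hf ((a - p) / (q - p)) ((b - p) / (q - p))
    (div_nonneg (by linarith) hpos.le) (by gcongr) (by rw [div_le_one hpos]; linarith)
  have hc1 : a ≤ p + c * (q - p) := by
    rw [div_le_iff₀ hpos] at h1; linarith
  have hd1 : p + d * (q - p) ≤ b := by
    rw [le_div_iff₀ hpos] at h3; linarith
  have hcd : p + c * (q - p) ≤ p + d * (q - p) := by nlinarith
  have e1 : ∀ w, (p + w * (q - p) - p) / (q - p) = w := by
    intro w; field_simp; ring
  refine ⟨p + c * (q - p), p + d * (q - p), hc1, hcd, hd1, ?_, ?_⟩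
  · rw [h _ (by linarith) (by linarith), h b (by linarith) hb, e1]
    rwa [add_sub_add_left_eq_sub]
  · rw [h _ (by linarith) (by linarith), h a ha (by linarith), e1]
    rwa [add_sub_add_left_eq_sub]

/-- transport along a decreasing affine change of variable and a shift. -/
lemma crk_affine_rev {f F : ℝ → ℝ} (hf : Crk f 0 1) {p q v : ℝ} (hpq : p < q)
    (h : ∀ x, p ≤ x → x ≤ q → F x = v + f ((q - x) / (q - p))) : Crk F p q := by
  intro a b ha hab hb
  have hpos : 0 < q - p := sub_pos.mpr hpq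
  obtain ⟨c, d, h1, h2, h3, h4, h5⟩ := hf ((q - b) / (q - p)) ((q - a) / (q - p))
    (div_nonneg (by linarith) hpos.le) (by gcongr) (by rw [div_le_one hpos]; linarith)
  have hc1 : q - b ≤ c * (q - p) := by
    rwa [div_le_iff₀ hpos] at h1
  have hd1 : d * (q - p) ≤ q - a := by
    rwa [le_div_iff₀ hpos] at h3
  have hcd : c * (q - p) ≤ d * (q - p) := by nlinarith
  have e1 : ∀ w, (q - (q - w * (q - p))) / (q - p) = w := by
    intro w; field_simp; ring
  refine ⟨q - d * (q - p), q - c * (q - p), by linarith, by linarith, by linarith, ?_, ?_⟩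
  · rw [h _ (by linarith) (by linarith), h b (by linarith) hb, e1]
    rwa [add_sub_add_left_eq_sub]
  · rw [h _ (by linarith) (by linarith), h a ha (by linarith), e1]
    rwa [add_sub_add_left_eq_sub]

/-- A crooked function of height `n`. -/
structure GoodFn (n : ℕ) (f : ℝ → ℝ) : Prop where
  cont : Continuous f
  zero : f 0 = 0
  one : f 1 = n
  range : ∀ x, 0 ≤ x → x ≤ 1 → 0 ≤ f x ∧ f x ≤ n
  crk : Crk f 0 1

lemma goodFn_zero : GoodFn 0 (fun _ => 0) where
  cont := continuous_const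
  zero := rfl
  one := by simp
  range := by intro x _ _; simp
  crk := by
    intro a b _ hab _
    exact ⟨a, b, le_rfl, hab, le_rfl, by simp, by simp⟩

lemma goodFn_one : GoodFn 1 (fun x => x) where
  cont := continuous_id
  zero := rfl
  one := by simp
  range := by intro x h1 h2; simp [h1, h2]
  crk := by
    intro a b ha hab hb
    refine ⟨a, b, le_rfl, hab, le_rfl, ?_, ?_⟩ <;> rw [abs_le] <;> constructor <;> linarith

lemma goodFn_succ {n : ℕ} {e f : ℝ → ℝ} (he : GoodFn n e) (hf : GoodFn (n + 1) f) :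
    ∃ F, GoodFn (n + 2) F := by
  let F : ℝ → ℝ := fun x => if x ≤ 1 / 3 then f (3 * x) else
    if x ≤ 2 / 3 then 1 + e (2 - 3 * x) else 1 + f (3 * x - 2)
  have hone := hf.one
  have heone := he.one
  push_cast at hone
  have hinner : Continuous fun x : ℝ => if x ≤ 2 / 3 then 1 + e (2 - 3 * x) else
      1 + f (3 * x - 2) := by
    refine Continuous.if_le (by have := he.cont; fun_prop) (by have := hf.cont; fun_prop)
      continuous_id continuous_const ?_
    intro x hx
    have hx' : x = 2 / 3 := hx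
    subst hx'
    norm_num [he.zero, hf.zero]
  have hF : Continuous F := by
    refine Continuous.if_le (by have := hf.cont; fun_prop) hinner continuous_id
      continuous_const ?_
    intro x hx
    have hx' : x = 1 / 3 := hx
    subst hx'
    norm_num [heone, hone]
    ring
  have FA : ∀ x, x ≤ 1 / 3 → F x = f (3 * x) := fun x hx => if_pos hx
  have FB : ∀ x, 1 / 3 ≤ x → x ≤ 2 / 3 → F x = 1 + e (2 - 3 * x) := by
    intro x hx hx'
    rcases hx.eq_or_lt with h | h
    · subst h
      rw [FA _ le_rfl]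
      norm_num [heone, hone]
      ring
    · simp only [F]
      rw [if_neg (not_le.mpr h), if_pos hx']
  have FC : ∀ x, 2 / 3 ≤ x → F x = 1 + f (3 * x - 2) := by
    intro x hx
    rcases hx.eq_or_lt with h | h
    · subst h
      rw [FB _ (by norm_num) le_rfl]
      norm_num [he.zero, hf.zero]
    · simp only [F]
      rw [if_neg (not_le.mpr (by linarith)), if_neg (not_le.mpr h)]
  have hn : (0 : ℝ) ≤ n := Nat.cast_nonneg n
  refine ⟨F, hF, ?_, ?_, ?_, ?_⟩
  · rw [FA 0 (by norm_num)]; simp [hf.zero]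
  · rw [FC 1 (by norm_num)]; norm_num [hone]; ring
  · intro x h0 h1
    push_cast
    rcases le_total x (1 / 3) with h | h
    · rw [FA x h]
      have := hf.range (3 * x) (by linarith) (by linarith)
      push_cast at this
      constructor <;> linarith [this.1, this.2]
    · rcases le_total x (2 / 3) with h' | h'
      · rw [FB x h h']
        have := he.range (2 - 3 * x) (by linarith) (by linarith)
        constructor <;> linarith [this.1, this.2]
      · rw [FC x h']
        have := hf.range (3 * x - 2) (by linarith) (by linarith)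
        push_cast at this
        constructor <;> linarith [this.1, this.2]
  · refine crk_glue hF (p := 0) (q := 1 / 3) (r := 2 / 3) (s := 1) (L := n + 1) (by norm_num)
      (by norm_num) (by norm_num) ?_ ?_ ?_ ?_ ?_ ?_ ?_ ?_
    · rw [FA _ le_rfl]; norm_num [hone]
    · rw [FC _ le_rfl]; norm_num [hf.zero]
    · intro x h0 h1
      rw [FA x h1]
      have := hf.range (3 * x) (by linarith) (by linarith)
      push_cast at this
      exact this
    · intro x h0 h1
      rw [FB x h0 h1]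
      have := he.range (2 - 3 * x) (by linarith) (by linarith)
      constructor <;> linarith [this.1, this.2]
    · intro x h0 h1
      rw [FC x h0]
      have := hf.range (3 * x - 2) (by linarith) (by linarith)
      push_cast at this
      constructor <;> linarith [this.1, this.2]
    · refine crk_affine (v := 0) hf.crk (by norm_num) ?_
      intro x h0 h1
      rw [FA x h1, zero_add]
      congr 1; ring
    · refine crk_affine_rev (v := 1) he.crk (by norm_num) ?_
      intro x h0 h1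
      rw [FB x h0 h1]
      congr 2; ring
    · refine crk_affine (v := 1) hf.crk (by norm_num) ?_
      intro x h0 h1
      rw [FC x h0]
      congr 2; ring

lemma exists_goodFn (n : ℕ) : (∃ f, GoodFn n f) ∧ ∃ f, GoodFn (n + 1) f := by
  induction n with
  | zero => exact ⟨⟨_, goodFn_zero⟩, ⟨_, goodFn_one⟩⟩
  | succ n ih =>
    obtain ⟨⟨e, he⟩, ⟨f, hf⟩⟩ := ih
    exact ⟨⟨f, hf⟩, goodFn_succ he hf⟩

/-- `ε`-crooked self-maps of the unit interval. -/
def CrookedMap (ε : ℝ) (h : unitInterval → unitInterval) : Prop :=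
  ∀ a b : unitInterval, a ≤ b → ∃ c d : unitInterval, a ≤ c ∧ c ≤ d ∧ d ≤ b ∧
    |(h c : ℝ) - h b| ≤ ε ∧ |(h d : ℝ) - h a| ≤ ε

/-- For every `ε > 0` there is an `ε`-crooked self-map of `[0,1]` fixing `0` and `1`. -/
theorem exists_crookedMap {ε : ℝ} (hε : 0 < ε) :
    ∃ h : C(unitInterval, unitInterval), h 0 = 0 ∧ h 1 = 1 ∧ CrookedMap ε h := by
  obtain ⟨n, hn⟩ := exists_nat_one_div_lt hε
  obtain ⟨f, hf⟩ := (exists_goodFn n).2
  have hN : (0 : ℝ) < (n : ℝ) + 1 := by positivity
  have hrange : ∀ x : unitInterval, f x / ((n : ℝ) + 1) ∈ unitInterval := by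
    intro x
    have := hf.range x x.2.1 x.2.2
    push_cast at this
    exact ⟨div_nonneg this.1 hN.le, (div_le_one hN).mpr this.2⟩
  let h : C(unitInterval, unitInterval) :=
    ⟨fun x => ⟨f x / ((n : ℝ) + 1), hrange x⟩, by
      have := hf.cont
      fun_prop⟩
  refine ⟨h, ?_, ?_, ?_⟩
  · apply Subtype.ext
    change f ((0 : unitInterval) : ℝ) / ((n : ℝ) + 1) = 0
    simp [hf.zero]
  · apply Subtype.ext
    change f ((1 : unitInterval) : ℝ) / ((n : ℝ) + 1) = 1
    have h1 := hf.one
    push_cast at h1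
    have h2 : ((1 : unitInterval) : ℝ) = 1 := rfl
    rw [h2, h1]
    exact div_self hN.ne'
  · intro a b hab
    obtain ⟨c, d, h1, h2, h3, h4, h5⟩ := hf.crk a b a.2.1 hab b.2.2
    have hc : c ∈ unitInterval := ⟨a.2.1.trans h1, (h2.trans h3).trans b.2.2⟩
    have hd : d ∈ unitInterval := ⟨(a.2.1.trans h1).trans h2, h3.trans b.2.2⟩
    have key : ∀ u v : ℝ, |u - v| ≤ 1 → |u / ((n : ℝ) + 1) - v / ((n : ℝ) + 1)| ≤ ε := by
      intro u v huv
      rw [← sub_div, abs_div, abs_of_pos hN]
      calc |u - v| / ((n : ℝ) + 1) ≤ 1 / ((n : ℝ) + 1) := by gcongr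
        _ ≤ ε := hn.le
    exact ⟨⟨c, hc⟩, ⟨d, hd⟩, h1, h2, h3, key _ _ h4, key _ _ h5⟩

end Pool.Agent.Work.MP_c2648d_gt
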