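import Pool.Agent.Work.MP_c2648d_gt.UniqueMin

set_option autoImplicit false

namespace Pool.Agent.Work.MP_c2648d_gt

open Set Topology Filter

variable {X : Type*} [TopologicalSpace X]

/-- Two points are identified when they have the same value `c` and lie in a connected subset of
the superlevel set `{g ≥ c}`. -/
def relSetoid (g : C(X, ℝ)) : Setoid X where
  r x y := g x = g y ∧ Above g x y
  iseqv := ⟨fun x => ⟨rfl, Above.refl _ _⟩, fun h => ⟨h.1.symm, h.2.symm h.1⟩,
    fun h h' => ⟨h.1.trans h'.1, h.2.trans h'.2⟩⟩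

/-- The quotient space. -/
abbrev Quo (g : C(X, ℝ)) : Type _ := Quotient (relSetoid g)

/-- The projection. -/
def proj (g : C(X, ℝ)) : X → Quo g := Quotient.mk (relSetoid g)

lemma proj_eq (g : C(X, ℝ)) {x y : X} : proj g x = proj g y ↔ g x = g y ∧ Above g x y :=
  Quotient.eq (r := relSetoid g)

lemma proj_surjective (g : C(X, ℝ)) : Function.Surjective (proj g) := Quotient.mk_surjective

lemma continuous_proj (g : C(X, ℝ)) : Continuous (proj g) := continuous_quotient_mk'

/-- The function induced on the quotient. -/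
def height (g : C(X, ℝ)) : C(Quo g, ℝ) where
  toFun := Quotient.lift g (fun _ _ h => h.1)
  continuous_toFun := g.continuous.quotient_lift _

@[simp] lemma height_proj (g : C(X, ℝ)) (x : X) : height g (proj g x) = g x := rfl

lemma isClosed_rel [CompactSpace X] [T2Space X] (g : C(X, ℝ)) :
    IsClosed {p : X × X | g p.1 = g p.2 ∧ Above g p.1 p.2} := by
  have h1 : IsClosed {p : X × X | g p.1 = g p.2} := isClosed_eq (by fun_prop) (by fun_prop)
  have h2 : Continuous fun p : X × X => ((g, p.1, p.2) : C(X, ℝ) × X × X) := by fun_prop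
  exact h1.inter (isClosed_above.preimage h2)

lemma isClosedMap_proj [CompactSpace X] [T2Space X] (g : C(X, ℝ)) : IsClosedMap (proj g) := by
  intro A hA
  have hq : IsQuotientMap (proj g) := isQuotientMap_quotient_mk'
  rw [← hq.isClosed_preimage]
  have h1 : proj g ⁻¹' (proj g '' A) =
      Prod.snd '' ({p : X × X | g p.1 = g p.2 ∧ Above g p.1 p.2} ∩ (A ×ˢ univ)) := by
    ext y
    constructor
    · rintro ⟨x, hx, hxy⟩
      exact ⟨(x, y), ⟨(proj_eq g).mp hxy, hx, mem_univ _⟩, rfl⟩
    · rintro ⟨⟨x, y'⟩, ⟨hxy, hx, -⟩, rfl⟩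
      exact ⟨x, hx, (proj_eq g).mpr hxy⟩
  rw [h1]
  exact isClosedMap_snd_of_compactSpace _ ((isClosed_rel g).inter (hA.prod isClosed_univ))

lemma t2_of_closed {Y : Type*} [TopologicalSpace Y] [CompactSpace X] [T2Space X] {π : X → Y}
    (hπ : IsClosedMap π) (hc : Continuous π) (hs : Function.Surjective π) : T2Space Y := by
  have hcl : ∀ y : Y, IsClosed (π ⁻¹' {y}) := by
    intro y
    obtain ⟨x, rfl⟩ := hs y
    have : IsClosed ({π x} : Set Y) := by
      have := hπ {x} isClosed_singleton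
      rwa [image_singleton] at this
    exact this.preimage hc
  refine ⟨fun y y' hyy => ?_⟩
  have hd : Disjoint (π ⁻¹' {y}) (π ⁻¹' {y'}) := by
    rw [Set.disjoint_left]
    intro x hx hx'
    exact hyy (hx.symm.trans hx')
  obtain ⟨U, V, hU, hV, hyU, hyV, hUV⟩ :=
    SeparatedNhds.of_isCompact_isCompact (hcl y).isCompact (hcl y').isCompact hd
  refine ⟨(π '' Uᶜ)ᶜ, (π '' Vᶜ)ᶜ, (hπ _ hU.isClosed_compl).isOpen_compl,
    (hπ _ hV.isClosed_compl).isOpen_compl, ?_, ?_, ?_⟩
  · rintro ⟨x, hx, hxy⟩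
    exact hx (hyU hxy)
  · rintro ⟨x, hx, hxy⟩
    exact hx (hyV hxy)
  · rw [Set.disjoint_left]
    intro w hw hw'
    obtain ⟨x, rfl⟩ := hs w
    have h1 : x ∈ U := by
      by_contra hxU; exact hw ⟨x, hxU, rfl⟩
    have h2 : x ∈ V := by
      by_contra hxV; exact hw' ⟨x, hxV, rfl⟩
    exact hUV.le_bot ⟨h1, h2⟩

instance [CompactSpace X] [T2Space X] (g : C(X, ℝ)) : T2Space (Quo g) :=
  t2_of_closed (isClosedMap_proj g) (continuous_proj g) (proj_surjective g)

instance [CompactSpace X] (g : C(X, ℝ)) : CompactSpace (Quo g) := Quotient.compactSpace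

instance [ConnectedSpace X] (g : C(X, ℝ)) : ConnectedSpace (Quo g) :=
  (proj_surjective g).connectedSpace (continuous_proj g)

/-- Continuous Hausdorff images of compact metrizable spaces are metrizable. -/
lemma metrizable_of_surjective {Y : Type*} [TopologicalSpace Y] [CompactSpace X] [T2Space X]
    [SecondCountableTopology X] [CompactSpace Y] [T2Space Y] {π : X → Y} (hc : Continuous π)
    (hs : Function.Surjective π) : TopologicalSpace.MetrizableSpace Y := by
  classical
  let Φ : C(Y, ℝ) → C(X, ℝ) := fun φ => φ.comp ⟨π, hc⟩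
  have hiso : Isometry Φ := by
    refine Isometry.of_dist_eq fun φ ψ => ?_
    apply le_antisymm
    · rw [ContinuousMap.dist_le dist_nonneg]
      intro x
      exact ContinuousMap.dist_apply_le_dist (π x)
    · rw [ContinuousMap.dist_le dist_nonneg]
      intro y
      obtain ⟨x, rfl⟩ := hs y
      exact ContinuousMap.dist_apply_le_dist (f := Φ φ) (g := Φ ψ) x
  have : SecondCountableTopology C(Y, ℝ) := hiso.isEmbedding.secondCountableTopology
  obtain ⟨u, hu⟩ := TopologicalSpace.exists_dense_seq C(Y, ℝ)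
  refine Metric.PiNatEmbed.TopologicalSpace.MetrizableSpace.of_countable_separating (fun n => (u n : Y → ℝ))
    (fun n => (u n).continuous) ?_
  intro y y' hyy
  obtain ⟨φ, hφ0, hφ1, -⟩ := exists_continuous_zero_one_of_isClosed (isClosed_singleton (x := y))
    (isClosed_singleton (x := y')) (by simpa using hyy)
  obtain ⟨n, hn⟩ := Metric.denseRange_iff.mp hu φ (1 / 3) (by norm_num)
  refine ⟨n, fun heq => ?_⟩
  have h1 : dist (φ y) (u n y) < 1 / 3 := (ContinuousMap.dist_apply_le_dist y).trans_lt hn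
  have h2 : dist (φ y') (u n y') < 1 / 3 := (ContinuousMap.dist_apply_le_dist y').trans_lt hn
  have h3 : φ y = 0 := hφ0 rfl
  have h4 : φ y' = 1 := hφ1 rfl
  rw [h3, Real.dist_eq, abs_lt] at h1
  rw [h4, Real.dist_eq, abs_lt] at h2
  have heq' : u n y = u n y' := heq
  linarith [h1.1, h1.2, h2.1, h2.2]

lemma uniqueMin_height [CompactSpace X] [T2Space X] (g : C(X, ℝ)) :
    UniqueMin (height g) := by
  intro C hC k hk k' hk' hkk hmin
  obtain ⟨x, rfl⟩ := proj_surjective g k
  obtain ⟨x', rfl⟩ := proj_surjective g k'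
  simp only [height_proj] at hkk hmin
  rw [proj_eq]
  refine ⟨hkk, ?_⟩
  by_contra hnot
  have hK : IsCompact {z | g x ≤ g z} := (isClosed_le continuous_const g.continuous).isCompact
  obtain ⟨U, V, hU, hV, hUV, hxU, hxV, hcov⟩ := exists_open_separation hK (x := x) (y := x')
    (show g x ≤ g x from le_rfl) (show g x ≤ g x' from hkk.le) (by
      rintro ⟨D, hD, hDK, hxD, hyD⟩
      exact hnot ⟨D, hD, hxD, hyD, fun z hz => hDK hz⟩)
  have h1 : IsClosed (proj g '' ({z | g x ≤ g z} ∩ Vᶜ)) :=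
    isClosedMap_proj g _ ((isClosed_le continuous_const g.continuous).inter hV.isClosed_compl)
  have h2 : IsClosed (proj g '' ({z | g x ≤ g z} ∩ Uᶜ)) :=
    isClosedMap_proj g _ ((isClosed_le continuous_const g.continuous).inter hU.isClosed_compl)
  have hxV' : x ∉ V := fun h => hUV.le_bot ⟨hxU, h⟩
  have hxU' : x' ∉ U := fun h => hUV.le_bot ⟨h, hxV⟩
  obtain ⟨w, hwC, ⟨z, ⟨hz, hzV⟩, hzw⟩, ⟨z', ⟨hz', hzU'⟩, hzw'⟩⟩ :=
    isPreconnected_closed_iff.mp hC _ _ h1 h2 (by
      intro w hw
      obtain ⟨z, rfl⟩ := proj_surjective g w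
      have hz : g x ≤ g z := hmin _ hw
      by_cases hzV : z ∈ V
      · exact Or.inr ⟨z, ⟨hz, fun h => hUV.le_bot ⟨h, hzV⟩⟩, rfl⟩
      · exact Or.inl ⟨z, ⟨hz, hzV⟩, rfl⟩)
      ⟨_, hk, x, ⟨show g x ≤ g x from le_rfl, hxV'⟩, rfl⟩
      ⟨_, hk', x', ⟨show g x ≤ g x' from hkk.le, hxU'⟩, rfl⟩
  have hzz : proj g z = proj g z' := hzw.trans hzw'.symm
  rw [proj_eq] at hzz
  obtain ⟨-, D, hD, hzD, hzD', hDg⟩ := hzz
  have hz1 : z ∈ U := (hcov hz).resolve_right hzV
  have hz2 : z' ∈ V := (hcov hz').resolve_left hzU'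
  have hz3 : g x ≤ g z := hz
  exact isPreconnected_not_separated hU hV hUV hD hzD hzD' hz1 hz2
    fun w hw => hcov (hz3.trans (hDg w hw))

/-- Every nondegenerate subcontinuum of the quotient is decomposable. -/
theorem decomposable_of_height [CompactSpace X] [T2Space X] (g : C(X, ℝ)) {K : Set (Quo g)}
    (hK : IsCompact K) (hKc : IsConnected K) (hKn : K.Nontrivial) :
    ∃ A B : Set (Quo g), (IsCompact A ∧ IsConnected A) ∧ (IsCompact B ∧ IsConnected B) ∧
      A ⊂ K ∧ B ⊂ K ∧ A ∪ B = K := by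
  have : CompactSpace K := isCompact_iff_compactSpace.mp hK
  have : ConnectedSpace K := isConnected_iff_connectedSpace.mp hKc
  have : Nontrivial K := hKn.coe_sort
  have hum : UniqueMin ((height g).restrict K) := by
    intro C hC k hk k' hk' hkk hmin
    have := uniqueMin_height g (Subtype.val '' C) (hC.image _ continuous_subtype_val.continuousOn)
      k ⟨k, hk, rfl⟩ k' ⟨k', hk', rfl⟩ hkk (by
        rintro _ ⟨z, hz, rfl⟩
        exact hmin z hz)
    exact Subtype.ext this
  obtain ⟨A, B, hA, hAc, hB, hBc, hAne, hBne, hAB⟩ :=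
    exists_decomposition ((height g).restrict K) hum
  have hsub : ∀ {D : Set K}, D ≠ univ → Subtype.val '' D ⊂ K := by
    intro D hD
    refine ⟨by rintro _ ⟨z, -, rfl⟩; exact z.2, fun hcon => hD ?_⟩
    ext z
    simp only [mem_univ, iff_true]
    obtain ⟨w, hw, hwz⟩ := hcon z.2
    rwa [← Subtype.ext hwz]
  refine ⟨Subtype.val '' A, Subtype.val '' B,
    ⟨hA.isCompact.image continuous_subtype_val, hAc.image _ continuous_subtype_val.continuousOn⟩,
    ⟨hB.isCompact.image continuous_subtype_val, hBc.image _ continuous_subtype_val.continuousOn⟩,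
    hsub hAne, hsub hBne, ?_⟩
  rw [← image_union, hAB, image_univ, Subtype.range_coe]

end Pool.Agent.Work.MP_c2648d_gt
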