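import Pool.Agent.Work.MP_c2648d_gt.Above

set_option autoImplicit false

namespace Pool.Agent.Work.MP_c2648d_gt

open Set Topology Filter

variable {Y : Type*} [TopologicalSpace Y]

/-- Every connected set has at most one minimiser of `ρ`. -/
def UniqueMin (ρ : Y → ℝ) : Prop :=
  ∀ C : Set Y, IsPreconnected C → ∀ k ∈ C, ∀ k' ∈ C, ρ k = ρ k' → (∀ z ∈ C, ρ k ≤ ρ z) → k = k'

lemma UniqueMin.injOn {ρ : Y → ℝ} (h : UniqueMin ρ) (y : Y) :
    InjOn ρ {z | Above ρ z y} := by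
  rintro z ⟨C, hC, hzC, hyC, hC'⟩ z' ⟨D, hD, hzD, hyD, hD'⟩ hzz
  refine h (C ∪ D) (hC.union y hyC hyD hD) z (Or.inl hzC) z' (Or.inr hzD) hzz ?_
  rintro w (hw | hw)
  · exact hC' w hw
  · rw [hzz]; exact hD' w hw

/-- Boundary bumping for superlevel sets. -/
lemma exists_above_of_mem_Icc [CompactSpace Y] [T2Space Y] [ConnectedSpace Y] (ρ : C(Y, ℝ))
    {k₀ y : Y} {c : ℝ} (hc : ρ k₀ ≤ c) (hcy : c ≤ ρ y) :
    ∃ z, ρ z = c ∧ Above ρ z y := by
  by_contra hcon
  push Not at hcon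
  have hKc : IsCompact {z | c ≤ ρ z} := (isClosed_le continuous_const ρ.continuous).isCompact
  have hL : IsCompact {z | ρ z = c} := (isClosed_eq ρ.continuous continuous_const).isCompact
  have hLne : ∃ z, ρ z = c := by
    have := isPreconnected_univ.intermediate_value (mem_univ k₀) (mem_univ y)
      ρ.continuous.continuousOn ⟨hc, hcy⟩
    obtain ⟨z, -, hz⟩ := this
    exact ⟨z, hz⟩
  have hsep : ∀ z : Y, ρ z = c → ∃ U V : Set Y, IsOpen U ∧ IsOpen V ∧ Disjoint U V ∧ z ∈ U ∧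
      y ∈ V ∧ {z | c ≤ ρ z} ⊆ U ∪ V := by
    intro z hz
    refine exists_open_separation hKc (show c ≤ ρ z from hz.ge) hcy ?_
    rintro ⟨C, hC, hCK, hzC, hyC⟩
    exact hcon z hz ⟨C, hC, hzC, hyC, fun w hw => hz ▸ hCK hw⟩
  choose! U V hU hV hUV hzU hyV hK using hsep
  obtain ⟨t, htL⟩ := hL.elim_nhds_subcover' (fun z _ => U z)
    (fun z hz => (hU z hz).mem_nhds (hzU z hz))
  set U' : Set Y := ⋃ z ∈ t, U (z : Y) with hU'
  set V' : Set Y := ⋂ z ∈ t, V (z : Y) with hV'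
  have hU'o : IsOpen U' := isOpen_biUnion fun z _ => hU z z.2
  have hV'o : IsOpen V' := isOpen_biInter_finset fun z _ => hV z z.2
  have hyV' : y ∈ V' := mem_iInter₂.mpr fun z _ => hyV z z.2
  have hdisj : Disjoint U' V' := by
    rw [Set.disjoint_left]
    intro w hw hw'
    obtain ⟨z, hz, hwz⟩ := mem_iUnion₂.mp hw
    exact (hUV z z.2).le_bot ⟨hwz, mem_iInter₂.mp hw' z hz⟩
  have hcov : {z | c ≤ ρ z} ⊆ U' ∪ V' := by
    intro w hw
    by_cases hwU : w ∈ U'
    · exact Or.inl hwU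
    · refine Or.inr (mem_iInter₂.mpr fun z hz => ?_)
      rcases hK z z.2 hw with h | h
      · exact absurd (mem_iUnion₂.mpr ⟨z, hz, h⟩) hwU
      · exact h
  set S : Set Y := {z | c ≤ ρ z} ∩ V' with hS
  have hS1 : S = {z | c ≤ ρ z} ∩ U'ᶜ := by
    ext w
    constructor
    · rintro ⟨h1, h2⟩
      exact ⟨h1, fun h3 => hdisj.le_bot ⟨h3, h2⟩⟩
    · rintro ⟨h1, h2⟩
      exact ⟨h1, (hcov h1).resolve_left h2⟩
  have hS2 : S = {z | c < ρ z} ∩ V' := by
    ext w
    constructor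
    · rintro ⟨h1, h2⟩
      have h1' : c ≤ ρ w := h1
      refine ⟨(lt_of_le_of_ne h1' ?_ : c < ρ w), h2⟩
      intro heq
      exact hdisj.le_bot ⟨htL heq.symm, h2⟩
    · rintro ⟨h1, h2⟩
      have h1' : c < ρ w := h1
      exact ⟨(le_of_lt h1' : c ≤ ρ w), h2⟩
  have hSclosed : IsClosed S := by
    rw [hS1]
    exact (isClosed_le continuous_const ρ.continuous).inter hU'o.isClosed_compl
  have hSopen : IsOpen S := by
    rw [hS2]
    exact (isOpen_lt continuous_const ρ.continuous).inter hV'o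
  have hSuniv : S = univ := IsClopen.eq_univ ⟨hSclosed, hSopen⟩ ⟨y, hcy, hyV'⟩
  obtain ⟨z, hz⟩ := hLne
  have : z ∈ S := hSuniv ▸ mem_univ z
  rw [hS2] at this
  exact absurd this.1 (by simp [hz])

lemma isClosed_ancestors [CompactSpace Y] [T2Space Y] (ρ : C(Y, ℝ)) (y : Y) :
    IsClosed {z | Above ρ z y} := by
  have : Continuous fun z : Y => ((ρ, z, y) : C(Y, ℝ) × Y × Y) := by fun_prop
  exact isClosed_above.preimage this

lemma isPreconnected_ancestors [CompactSpace Y] [T2Space Y] [ConnectedSpace Y] (ρ : C(Y, ℝ))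
    (h : UniqueMin ρ) {k₀ : Y} (hk₀ : ∀ z, ρ k₀ ≤ ρ z) (y : Y) :
    IsPreconnected {z | Above ρ z y} := by
  have hAc := isClosed_ancestors ρ y
  rw [isPreconnected_closed_iff]
  intro t t' ht ht' hcov hne hne'
  have h1 : IsClosed (ρ '' ({z | Above ρ z y} ∩ t)) :=
    ((hAc.inter ht).isCompact.image ρ.continuous).isClosed
  have h2 : IsClosed (ρ '' ({z | Above ρ z y} ∩ t')) :=
    ((hAc.inter ht').isCompact.image ρ.continuous).isClosed
  have h3 : Icc (ρ k₀) (ρ y) ⊆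
      ρ '' ({z | Above ρ z y} ∩ t) ∪ ρ '' ({z | Above ρ z y} ∩ t') := by
    intro c hc
    obtain ⟨z, hz, hzA⟩ := exists_above_of_mem_Icc ρ hc.1 hc.2
    rcases hcov hzA with hzt | hzt
    · exact Or.inl ⟨z, ⟨hzA, hzt⟩, hz⟩
    · exact Or.inr ⟨z, ⟨hzA, hzt⟩, hz⟩
  have hmem : ∀ {s : Set Y}, ({z | Above ρ z y} ∩ s).Nonempty →
      (Icc (ρ k₀) (ρ y) ∩ ρ '' ({z | Above ρ z y} ∩ s)).Nonempty := by
    rintro s ⟨z, hz, hzs⟩
    exact ⟨ρ z, ⟨hk₀ z, hz.le⟩, z, ⟨hz, hzs⟩, rfl⟩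
  obtain ⟨c, -, ⟨z, ⟨hzA, hzt⟩, hz⟩, ⟨z', ⟨hzA', hzt'⟩, hz'⟩⟩ :=
    isPreconnected_closed_iff.mp isPreconnected_Icc _ _ h1 h2 h3 (hmem hne) (hmem hne')
  have : z = z' := h.injOn y hzA hzA' (hz.trans hz'.symm)
  subst this
  exact ⟨z, hzA, hzt, hzt'⟩

lemma isConnected_sublevel [CompactSpace Y] [T2Space Y] [ConnectedSpace Y] (ρ : C(Y, ℝ))
    (h : UniqueMin ρ) {k₀ : Y} (hk₀ : ∀ z, ρ k₀ ≤ ρ z) {c : ℝ} (hc : ρ k₀ ≤ c) :
    IsConnected {z | ρ z ≤ c} := by
  refine ⟨⟨k₀, hc⟩, ?_⟩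
  refine isPreconnected_of_forall k₀ ?_
  intro z hz
  refine ⟨{w | Above ρ w z}, ?_, ?_, Above.refl _ _, isPreconnected_ancestors ρ h hk₀ z⟩
  · intro w hw
    exact hw.le.trans hz
  · exact ⟨univ, isPreconnected_univ, mem_univ _, mem_univ _, fun w _ => hk₀ w⟩

lemma isPreconnected_union_side [ConnectedSpace Y] {A P Q : Set Y} (hA : IsPreconnected A)
    (hAne : A.Nonempty) (hP : IsOpen P) (hQ : IsOpen Q) (hAP : Disjoint A P)
    (hAQ : Disjoint A Q) (hPQ : Disjoint P Q) (hcov : A ∪ P ∪ Q = univ) :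
    IsPreconnected (A ∪ P) := by
  have hAPc : A ∪ P = Qᶜ := by
    ext w
    constructor
    · rintro (hw | hw) hwQ
      · exact hAQ.le_bot ⟨hw, hwQ⟩
      · exact hPQ.le_bot ⟨hw, hwQ⟩
    · intro hw
      have : w ∈ A ∪ P ∪ Q := hcov ▸ mem_univ w
      exact this.resolve_right hw
  have key : ∀ t t' : Set Y, IsClosed t → IsClosed t' → A ∪ P ⊆ t ∪ t' →
      ((A ∪ P) ∩ t').Nonempty → (A ∩ t).Nonempty → ((A ∪ P) ∩ (t ∩ t')).Nonempty := by
    intro t t' ht ht' hc hne' hAt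
    by_contra hcon
    rw [not_nonempty_iff_eq_empty] at hcon
    have hAt' : A ∩ t' = ∅ := by
      by_contra hA'
      rw [← ne_eq, ← nonempty_iff_ne_empty] at hA'
      obtain ⟨z, hz, hzt⟩ := isPreconnected_closed_iff.mp hA t t' ht ht'
        (subset_union_left.trans hc) hAt hA'
      have : z ∈ (A ∪ P) ∩ (t ∩ t') := ⟨Or.inl hz, hzt⟩
      rw [hcon] at this
      exact this
    have hS1 : (A ∪ P) ∩ t' = P ∩ tᶜ := by
      ext w
      constructor
      · rintro ⟨hw | hw, hwt⟩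
        · have : w ∈ A ∩ t' := ⟨hw, hwt⟩
          rw [hAt'] at this
          exact absurd this (notMem_empty w)
        · refine ⟨hw, fun hwt2 => ?_⟩
          have : w ∈ (A ∪ P) ∩ (t ∩ t') := ⟨Or.inr hw, hwt2, hwt⟩
          rw [hcon] at this
          exact this
      · rintro ⟨hw, hwt⟩
        exact ⟨Or.inr hw, (hc (Or.inr hw)).resolve_left hwt⟩
    have hclosed : IsClosed ((A ∪ P) ∩ t') := by
      rw [hAPc]; exact hQ.isClosed_compl.inter ht'
    have hopen : IsOpen ((A ∪ P) ∩ t') := by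
      rw [hS1]; exact hP.inter ht.isOpen_compl
    have huniv := IsClopen.eq_univ ⟨hclosed, hopen⟩ hne'
    obtain ⟨a, ha⟩ := hAne
    have : a ∈ (A ∪ P) ∩ t' := huniv ▸ mem_univ a
    have : a ∈ A ∩ t' := ⟨ha, this.2⟩
    rw [hAt'] at this
    exact this
  rw [isPreconnected_closed_iff]
  intro t t' ht ht' hc hne hne'
  obtain ⟨a, ha⟩ := hAne
  rcases hc (Or.inl ha) with h | h
  · exact key t t' ht ht' hc hne' ⟨a, ha, h⟩
  · have := key t' t ht' ht (by rw [union_comm t' t]; exact hc) hne ⟨a, ha, h⟩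
    rwa [inter_comm t t']

/-- A connected space with a closed connected proper subset with nonempty interior is
decomposable. -/
lemma exists_decomposition_of_interior [ConnectedSpace Y] {A : Set Y} (hAcl : IsClosed A)
    (hA : IsConnected A) (hAne : A ≠ univ) (hint : (interior A).Nonempty) :
    ∃ A B : Set Y, IsClosed A ∧ IsConnected A ∧ IsClosed B ∧ IsConnected B ∧ A ≠ univ ∧
      B ≠ univ ∧ A ∪ B = univ := by
  have hAc : Aᶜ.Nonempty := nonempty_compl.mpr hAne
  by_cases hpre : IsPreconnected Aᶜ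
  · refine ⟨A, closure Aᶜ, hAcl, hA, isClosed_closure, ⟨hAc.closure, hpre.closure⟩, hAne, ?_, ?_⟩
    · intro h
      rw [closure_compl] at h
      obtain ⟨z, hz⟩ := hint
      have : z ∈ (interior A)ᶜ := h ▸ mem_univ z
      exact this hz
    · ext w
      simp only [mem_union, mem_univ, iff_true]
      by_cases hw : w ∈ A
      · exact Or.inl hw
      · exact Or.inr (subset_closure hw)
  · unfold IsPreconnected at hpre
    push Not at hpre
    obtain ⟨u, v, hu, hv, hcov, hne, hne', hemp⟩ := hpre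
    set P : Set Y := Aᶜ ∩ u with hP
    set Q : Set Y := Aᶜ ∩ v with hQ
    have hPo : IsOpen P := hAcl.isOpen_compl.inter hu
    have hQo : IsOpen Q := hAcl.isOpen_compl.inter hv
    have hAP : Disjoint A P := by
      rw [Set.disjoint_left]; intro w hw hw'; exact hw'.1 hw
    have hAQ : Disjoint A Q := by
      rw [Set.disjoint_left]; intro w hw hw'; exact hw'.1 hw
    have hPQ : Disjoint P Q := by
      rw [Set.disjoint_left]; intro w hw hw'
      have : w ∈ Aᶜ ∩ (u ∩ v) := ⟨hw.1, hw.2, hw'.2⟩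
      rw [hemp] at this; exact this
    have hcov1 : A ∪ P ∪ Q = univ := by
      ext w
      simp only [mem_univ, iff_true]
      by_cases hw : w ∈ A
      · exact Or.inl (Or.inl hw)
      · rcases hcov hw with h | h
        · exact Or.inl (Or.inr ⟨hw, h⟩)
        · exact Or.inr ⟨hw, h⟩
    have hcov2 : A ∪ Q ∪ P = univ := by rw [← hcov1, union_right_comm]
    have h1 := isPreconnected_union_side hA.isPreconnected hA.nonempty hPo hQo hAP hAQ hPQ hcov1
    have h2 := isPreconnected_union_side hA.isPreconnected hA.nonempty hQo hPo hAQ hAP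
      hPQ.symm hcov2
    have hcl1 : A ∪ P = Qᶜ := by
      ext w
      constructor
      · rintro (hw | hw) hwQ
        · exact hAQ.le_bot ⟨hw, hwQ⟩
        · exact hPQ.le_bot ⟨hw, hwQ⟩
      · intro hw
        have : w ∈ A ∪ P ∪ Q := hcov1 ▸ mem_univ w
        exact this.resolve_right hw
    have hcl2 : A ∪ Q = Pᶜ := by
      ext w
      constructor
      · rintro (hw | hw) hwQ
        · exact hAP.le_bot ⟨hw, hwQ⟩
        · exact hPQ.le_bot ⟨hwQ, hw⟩
      · intro hw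
        have : w ∈ A ∪ Q ∪ P := hcov2 ▸ mem_univ w
        exact this.resolve_right hw
    refine ⟨A ∪ P, A ∪ Q, ?_, ⟨hA.nonempty.mono subset_union_left, h1⟩, ?_,
      ⟨hA.nonempty.mono subset_union_left, h2⟩, ?_, ?_, ?_⟩
    · rw [hcl1]; exact hQo.isClosed_compl
    · rw [hcl2]; exact hPo.isClosed_compl
    · rw [hcl1]; intro h
      rw [compl_univ_iff] at h
      rw [h] at hne'
      exact not_nonempty_empty hne'
    · rw [hcl2]; intro h
      rw [compl_univ_iff] at h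
      rw [h] at hne
      exact not_nonempty_empty hne
    · ext w
      simp only [mem_univ, iff_true]
      have : w ∈ A ∪ P ∪ Q := hcov1 ▸ mem_univ w
      rcases this with h | h
      · exact Or.inl h
      · exact Or.inr (Or.inr h)

/-- A nondegenerate continuum with a function having the unique minimum property is
decomposable. -/
theorem exists_decomposition [CompactSpace Y] [T2Space Y] [ConnectedSpace Y] [Nontrivial Y]
    (ρ : C(Y, ℝ)) (h : UniqueMin ρ) :
    ∃ A B : Set Y, IsClosed A ∧ IsConnected A ∧ IsClosed B ∧ IsConnected B ∧ A ≠ univ ∧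
      B ≠ univ ∧ A ∪ B = univ := by
  obtain ⟨k₀, -, hk₀⟩ := isCompact_univ.exists_isMinOn (univ_nonempty (α := Y))
    ρ.continuous.continuousOn
  have hk : ∀ z, ρ k₀ ≤ ρ z := fun z => hk₀ (mem_univ z)
  obtain ⟨z, hz⟩ := exists_ne k₀
  have hlt : ρ k₀ < ρ z := by
    refine lt_of_le_of_ne (hk z) fun heq => hz ?_
    exact (h univ isPreconnected_univ k₀ (mem_univ _) z (mem_univ _) heq fun w _ => hk w).symm
  set c := (ρ k₀ + ρ z) / 2 with hc
  have hc1 : ρ k₀ < c := by rw [hc]; linarith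
  have hc2 : c < ρ z := by rw [hc]; linarith
  refine exists_decomposition_of_interior (A := {z | ρ z ≤ c})
    (isClosed_le ρ.continuous continuous_const) (isConnected_sublevel ρ h hk hc1.le) ?_ ?_
  · intro huniv
    have : z ∈ {z | ρ z ≤ c} := huniv ▸ mem_univ z
    exact absurd this (not_le.mpr hc2)
  · refine ⟨k₀, ?_⟩
    rw [mem_interior]
    exact ⟨{z | ρ z < c}, fun w (hw : ρ w < c) => (le_of_lt hw : ρ w ≤ c), isOpen_lt ρ.continuous continuous_const, hc1⟩

end Pool.Agent.Work.MP_c2648d_gt
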